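import Pool.Agent.H6.SYS2.Cor

/-!
# The local theorem from local fields in a sub-cell

`Loc` is any field of a cell which holds in a sub-cell (`SubLoc`). The local theorem with this field
(`MicLoc`) gives the local theorem.
-/

set_option autoImplicit false

namespace Pool.MicA

open Pool.Agent.H49.Ent Pool.Agent.H32.Dense Pool.STAT

/-- A field of a cell. -/
abbrev Fldc : Type 1 :=
  (D : NDat2) → (n z M : ℕ) → (lam gam : ℕ → ℝ) → (κ : ℝ) → (D.Ω → ℝ) → Prop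

/-- Every cell has a sub-cell with the field. -/
def SubLoc (Loc : Fldc) : Prop :=
  ∀ (n K : ℕ) (lam gam : ℕ → ℝ) (C₁ : ℝ), 1 ≤ n → (∀ l, 1 ≤ lam l) → (∀ l, 0 ≤ gam l) →
    0 ≤ C₁ → ∀ (M' m₀ : ℕ) (κ' : ℝ), 0 < κ' →
    ∃ (M : ℕ) (κ : ℝ) (z₀ : ℕ), 0 < κ ∧ ∀ (J a₀ w₀ z : ℕ) (D : NDat2) (q : D.Ω → ℝ), z₀ ≤ z →
      D.Ok2 n K J a₀ w₀ z M lam gam κ C₁ q → ∃ (N i₀ j₀ : ℕ), m₀ ≤ N ∧ NDat2.SubG i₀ j₀ N M' M ∧
      Loc (D.sc J w₀ i₀ j₀ N z) n (N * z) M' lam gam κ' q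

/-- The local theorem with one more field. -/
def MicLoc (Loc : Fldc) (Q : Cond2) : Prop :=
  ∀ (n K A B : ℕ) (lam gam : ℕ → ℝ) (C₁ h : ℝ), 1 ≤ n → 1 ≤ B → (∀ l, 1 ≤ lam l) →
    (∀ l, 0 ≤ gam l) → 0 < gam n → 1 ≤ C₁ → 0 < h → h ≤ 1 → Q n lam gam →
    ∃ (M K' : ℕ) (η' κ ϖ : ℝ) (z₀ : ℕ), 0 < η' ∧ 0 < κ ∧ 0 < ϖ ∧
    ∀ (J a₀ w₀ z : ℕ) (D : NDat2) (q : D.Ω → ℝ), z₀ ≤ z →
      D.Ok2 n K J a₀ w₀ z M lam gam κ C₁ q → Loc D n z M lam gam κ q →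
      D.NF n z M B gam h C₁ ϖ q → D.TmU J w₀ z κ q → D.Concl2 n J a₀ w₀ z M A K' η' q

/-- **The sub-cell.** -/
theorem micOf_of_loc {Loc : Fldc} (hL : SubLoc Loc) {Q : Cond2} (hQ : MicLoc Loc Q) :
    MicOf Q := by
  intro n K A B lam gam C₁ h hn hB hlam hgam hgn hC₁ hh hh1 hQn
  obtain ⟨M', K', η', κ', ϖ, z₁, hη', hκ', hϖ, H⟩ :=
    hQ n K A B lam gam C₁ h hn hB hlam hgam hgn hC₁ hh hh1 hQn
  obtain ⟨M, κ, z₂, hκ, H2⟩ := hL n K lam gam C₁ hn hlam hgam (by linarith) M' 2 κ' hκ'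
  refine ⟨M, K', η', min κ κ', ϖ, max z₁ z₂, hη', lt_min hκ hκ', hϖ, ?_⟩
  intro J a₀ w₀ z D q hz hO hN hT
  have hz1 : z₁ ≤ z := (le_max_left _ _).trans hz
  have hz2 : z₂ ≤ z := (le_max_right _ _).trans hz
  obtain ⟨N, i₀, j₀, hN2, hG, hF⟩ := H2 J a₀ w₀ z D q hz2 (hO.mono_κ (min_le_left _ _))
  have hNR : (2 : ℝ) ≤ N := by exact_mod_cast hN2
  have hκN : min κ κ' ≤ κ' * N := by
    have h1 : κ' * 1 ≤ κ' * N := mul_le_mul_of_nonneg_left (by linarith) hκ'.le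
    exact (min_le_right _ _).trans (by linarith)
  have hCN : C₁ ≤ C₁ * N := by
    have h1 : C₁ * 1 ≤ C₁ * N := mul_le_mul_of_nonneg_left (by linarith) (by linarith)
    linarith
  have hC := H J (a₀ + i₀ * z) (w₀ + j₀ * z) (N * z) (D.sc J w₀ i₀ j₀ N z) q
    (hz1.trans (Nat.le_mul_of_pos_left _ (by omega)))
    (hO.sc hG hN2 (by linarith) hκN) hF (hN.sc hG hgn.le hCN) (hT.sc hO hG hκN)
  obtain ⟨i, hi, j, hj, hlab⟩ := NDat2.Concl2.of_sc hO.isLaw.nonneg hG hO.thin hO.top hC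
  exact ⟨i, hi, j, hj, hlab.mono hO.isLaw.nonneg (Nat.le_mul_of_pos_right _ (by omega)) le_rfl
    le_rfl⟩

end Pool.MicA
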