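import Pool.Agent.H46.MicA.Defs

/-!
# From a cell to one context: statements

The base pair is `(i, j)`, `(i', j')` is the own leaf. `X = U z` digits. `K₀` is the degree of the
own leaf in the natural chart.
-/

set_option autoImplicit false

namespace Pool.MicA

open Finset MvPolynomial
open Pool.Agent.H49.Ent Pool.Agent.H32.Dense Pool.STK Pool.STAT Pool.MIC Pool.MIC.Frm Pool.LBL
open Pool.BFL (Pl Pb)
open Pool.K2S (cpn)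
open scoped Polynomial

/-- Two samples of one line and window have different times. -/
def SepStmt : Prop :=
  ∀ e : ℝ, 0 < e → ∃ (κ : ℝ) (z₀ : ℕ), 0 < κ ∧
    ∀ (J w₀ w z y : ℕ) (D : NDat2) (q : D.Ω → ℝ), z₀ ≤ z → z ≤ y → w₀ ≤ w → w + y ≤ J →
      IsLaw q → (∀ ω, D.T ω < 2 ^ J) → Det q D.ln (fun ω => D.T ω / 2 ^ (J - w₀)) →
      D.TmU J w₀ z κ q →
      Pb (dbl q (D.wn J w)) (fun v : D.Ω × D.Ω =>
        |((thr D J w v.1 : ℝ) / 2 ^ (J - w)) - ((thr D J w v.2 : ℝ) / 2 ^ (J - w))| *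
          2 ^ y < 1) ≤ e

/-- The times of several samples are almost independent of the line. -/
def TimesStmt : Prop :=
  ∀ (J w₀ w z N : ℕ) (κ : ℝ) (D : NDat2) (q : D.Ω → ℝ) (Γ : Type) (b : D.Ω → Γ), w₀ ≤ w →
    w ≤ J → IsLaw q → (∀ ω, D.T ω < 2 ^ J) → Det q D.ln (fun ω => D.T ω / 2 ^ (J - w₀)) →
    D.TmU J w₀ z κ q → Det q (D.wn J w) b → Det q b (fun ω => D.T ω / 2 ^ (J - w)) →
    CH (cpn q (D.wn J w) N) (fun v => D.wn J w (v 0)) (fun v => b (v 0)) ≤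
      CH (cpn q (D.wn J w) N) (fun v => D.wn J w (v 0))
        (fun v => (b (v 0), fun i => thr D J w (v i))) + (N + 1) * (κ * z)

/-- The entropy fields: the position is full given the own leaf, the shape is almost independent
of the exact point, the height is not full. -/
def EntStmt : Prop :=
  ∀ (n K K₀ B R : ℕ) (lam gam : ℕ → ℝ) (C₁ h : ℝ), 1 ≤ n → 1 ≤ B → 1 ≤ R → 0 < gam n →
    1 ≤ C₁ → 0 < h → h ≤ 1 → K * (K + 1) ^ n ≤ K₀ → ∃ C : ℝ, 1 ≤ C ∧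
    ∀ (J a₀ w₀ z M i j i' j' U bb : ℕ) (κ ϖ : ℝ) (D : NDat2) (q : D.Ω → ℝ), 1 ≤ z →
      0 ≤ κ → κ ≤ 1 → ϖ ≤ 1 → 1 ≤ U → i + B * U ≤ M → (U : ℝ) ≤ gam n * (M - j) →
      NDat2.Inn M (R * U) i j → NDat2.Inn M (R * U) i' j' → i' + R * U ≤ i → j + R * U ≤ j' →
      Fat D n i j i' j' → D.g i j n + U * z ≤ D.g i' j' n → C * z ≤ bb →
      D.Ok2 n K J a₀ w₀ z M lam gam κ C₁ q → D.NF n z M B gam h C₁ ϖ q →
      D.LLV n z M κ q → D.LLN n z M R κ q →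
      ((n - 1 : ℕ) : ℝ) * (((U * z : ℕ) : ℝ) * Real.log 2) -
          (C * bb + C * (U * z) * Pb q (fun ω => ¬ Gdk D n K₀ z i j i' j' (U * z) bb ω)) ≤
        CH q (Yp D n z i j (U * z)) (fun ω => (htA D n K₀ z i j i' j' (U * z) bb ω,
          (kpA D n K₀ z i j i' j' (U * z) bb ω, (D.c i j ω, thr D J (w₀ + j * z) ω)))) ∧
      CH q (kpA D n K₀ z i j i' j' (U * z) bb)
          (fun ω => (D.c i j ω, thr D J (w₀ + j * z) ω)) ≤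
        CH q (kpA D n K₀ z i j i' j' (U * z) bb) (fun ω => (nuA D n i j (U * z) ω,
          (Yp D n z i j (U * z) ω, (D.c i j ω, thr D J (w₀ + j * z) ω)))) +
          (C * bb + C * (U * z) * Pb q (fun ω => ¬ Gdk D n K₀ z i j i' j' (U * z) bb ω)) ∧
      CH q (nuA D n i j (U * z)) (fun ω => (Yp D n z i j (U * z) ω,
        (D.c i j ω, thr D J (w₀ + j * z) ω))) ≤ (1 - h) * (((U * z : ℕ) : ℝ) * Real.log 2) +
          (C * bb + C * (U * z) * Pb q (fun ω => ¬ Gdk D n K₀ z i j i' j' (U * z) bb ω))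

/-- **The own leaf and the label** of the target agree on the natural box. -/
def UniOwnStmt : Prop :=
  ∀ (n K : ℕ) (lam gam : ℕ → ℝ) (C₁ R ε e : ℝ), 1 ≤ n → 1 ≤ C₁ → 1 ≤ R → 0 < ε → 0 < e →
    ∃ (κ : ℝ) (z₀ : ℕ), 0 < κ ∧
    ∀ (J a₀ w₀ z M i j i' j' : ℕ) (D : NDat2) (q : D.Ω → ℝ), z₀ ≤ z → i < M → j ≤ M → i' ≤ M →
      j' ≤ M → Fat D n i j i' j' → D.g i j n ≤ D.g i' j' n →
      D.Ok2 n K J a₀ w₀ z M lam gam κ C₁ q → D.LLV n z M κ q →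
      Pb q (fun ω => ¬ ∀ b : ℕ → ℝ, b 0 = D.X ω 0 →
        (∀ r, 1 ≤ r → r < n → |nat (D.g i j) (D.Φ i j ω) b r| ≤ R) →
        |eval b (D.Ψ i' j' ω n) - eval b (D.Φ i j ω n)| ≤
          Real.exp (ε * z) / 2 ^ D.g i j n) ≤ e

/-- **Two radii** of one window, `i₁ ≤ i₂`: the labels agree on the smaller natural box, in all the
coordinates. -/
def UniRadStmt : Prop :=
  ∀ (n K : ℕ) (lam gam : ℕ → ℝ) (C₁ R ε e : ℝ), 1 ≤ n → 1 ≤ C₁ → 1 ≤ R → 0 < ε → 0 < e →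
    ∃ (κ : ℝ) (z₀ : ℕ), 0 < κ ∧
    ∀ (J a₀ w₀ z M i₁ i₂ j : ℕ) (D : NDat2) (q : D.Ω → ℝ), z₀ ≤ z → i₁ ≤ i₂ → i₂ < M → j ≤ M →
      (∀ l, 1 ≤ l → l ≤ n → D.g i₁ j l ≤ D.g i₂ j l) →
      D.Ok2 n K J a₀ w₀ z M lam gam κ C₁ q →
      Pb q (fun ω => ¬ ∀ l, 1 ≤ l → l ≤ n → ∀ b : ℕ → ℝ, b 0 = D.X ω 0 →
        (∀ r, 1 ≤ r → r < l → |nat (D.g i₂ j) (D.Φ i₂ j ω) b r| ≤ R) →
        |eval b (D.Φ i₂ j ω l) - eval b (D.Φ i₁ j ω l)| ≤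
          Real.exp (ε * z) / 2 ^ D.g i₁ j l) ≤ e

/-- **The path** of a line in scaled coordinates. -/
def PathStmt : Prop :=
  ∀ (n K : ℕ) (lam gam : ℕ → ℝ) (C₁ e : ℝ), 1 ≤ n → 1 ≤ C₁ → 0 < e →
    ∃ (E : ℕ) (κ : ℝ) (z₀ : ℕ), 0 < κ ∧
    ∀ (J a₀ w₀ z M i j : ℕ) (D : NDat2) (q : D.Ω → ℝ), z₀ ≤ z → i ≤ M → j ≤ M →
      D.Ok2 n K J a₀ w₀ z M lam gam κ C₁ q → D.TmU J w₀ z κ q →
      ∃ β : D.Λ × ℕ → Fin (n - 1) → Fin (E + 1) → ℝ,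
        (∀ ω, 0 < q ω → ∀ l, pos (β (D.wn J (w₀ + j * z) ω))
          ((thr D J (w₀ + j * z) ω : ℝ) / 2 ^ (J - (w₀ + j * z))) l =
            up z (zt D i j ω (l + 1))) ∧
        Pb q (fun ω => ¬ ∀ l e, |β (D.wn J (w₀ + j * z) ω) l e| ≤ 1) ≤ e

/-- **The gradient of the own shape along the path** is a polynomial in the time; no base
coordinate has the weight of the target. -/
def GradStmt : Prop :=
  ∀ (n K : ℕ) (lam gam : ℕ → ℝ) (C₁ : ℝ), 1 ≤ n → 1 ≤ C₁ → (∀ l, 1 ≤ lam l) →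
    (∀ l, 0 ≤ gam l) → (∀ l, 1 ≤ l → l < n → lam l ≠ lam n) → ∃ nn : ℕ, ∀ (S : ℕ) (e : ℝ), 0 < e →
    ∃ (d : ℕ) (κ : ℝ) (z₀ : ℕ), 0 < κ ∧
    ∀ (J a₀ w₀ z M i j i' j' : ℕ) (D : NDat2) (q : D.Ω → ℝ), z₀ ≤ z → d ≤ i →
      i + d < M → j ≤ M → i' ≤ M → j' ≤ M → Fat D n (i - d) j i' j' →
      D.g (i + d) j n ≤ D.g i' j' n →
      D.Ok2 n K J a₀ w₀ z M lam gam κ C₁ q → D.LLV n z M κ q →
      ∃ g : D.Λ × ℕ → Fin (n - 1) → ℝ[X], (∀ x l, (g x l).degree < nn) ∧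
        Pb q (fun ω => ¬ ∀ l : Fin (n - 1),
          |eval (fun r : Fin (n - 1) => up z (zt D i j ω (r + 1)))
              (pderiv l (kp0 D n z i j i' j' ω)) -
            (g (D.wn J (w₀ + j * z) ω) l).eval
              ((thr D J (w₀ + j * z) ω : ℝ) / 2 ^ (J - (w₀ + j * z)))| ≤
            1 / 2 ^ (S * z)) ≤ e

end Pool.MicA
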