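import Pool.Agent.H46.MicA.Det
import Pool.Agent.H46.MicA.Stm

/-!
# The gradient of `kp0` and polynomials along the path
-/

set_option autoImplicit false

namespace Pool.MicA

open Finset MvPolynomial
open Pool.STAT Pool.MIC.Frm Pool.STAT.AdxRow
open Pool.BFL (Pl Pb)
open scoped Polynomial

theorem fr_atT {Φ : ℕ → PN} (t : ℝ) {m : ℕ} (hm : 1 ≤ m) : fr (atT t Φ) m = fr Φ m := by
  unfold fr
  congr 1
  funext ξ r
  split_ifs with h1 h2
  · rfl
  · rfl
  · unfold atT
    rw [Function.update_of_ne (by omega)]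

theorem dv_atT {Φ : ℕ → PN} (t : ℝ) {m : ℕ} (hm : 1 ≤ m) : dv (atT t Φ) m = dv Φ m := by
  unfold dv
  rw [fr_atT t hm]

theorem pt_congr {g : ℕ → ℕ} {Φ : ℕ → PN} (hΦ : TriN Φ) {u u' : ℕ → ℝ} {r : ℕ}
    (h : ∀ i ≤ r, u i = u' i) : pt g Φ u r = pt g Φ u' r := by
  unfold pt
  exact evl_congr fun k hk => h k (by
    have := mem_range.1 (nuc_vars hΦ g r hk)
    omega)

/-- The point of the sample at the exact time. -/
theorem pt_own {g : ℕ → ℕ} {Φ : ℕ → PN} (hΦ : TriN Φ) {n : ℕ} (x : ℕ → ℝ) {r : ℕ} (hr : r < n) :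
    pt g (atT (x 0) Φ) (ex1 fun l : Fin (n - 1) => nat g Φ x (l + 1)) r = x r := by
  have h1 : pt g (atT (x 0) Φ) (nat g (atT (x 0) Φ) x) r = x r :=
    congrFun (pt_nat (tri_atT hΦ (x 0)) x) r
  rw [← h1]
  refine pt_congr (tri_atT hΦ _) fun i hi => ?_
  rcases Nat.eq_zero_or_pos i with rfl | hi'
  · rw [ex1_zero]
    unfold nat atT
    rw [Function.update_self, eval_C, sub_self, mul_zero]
  · obtain ⟨j, rfl⟩ : ∃ j, i = j + 1 := ⟨i - 1, by omega⟩
    rw [ex1_succ _ (by omega)]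
    unfold nat atT
    rw [Function.update_of_ne (by omega)]

/-- **The gradient of `kp0`.** -/
theorem grad_kp0 (D : NDat2) (n z i j i' j' : ℕ) (ω : D.Ω) (hΦ : TriN (D.Φ i j ω))
    (hF : (D.Ψ i' j' ω n - D.Φ i j ω n).vars ⊆ range n) (l : Fin (n - 1)) :
    eval (fun r : Fin (n - 1) => up z (zt D i j ω (r + 1))) (pderiv l (kp0 D n z i j i' j' ω)) =
      4 * 2 ^ z * ((2 : ℝ) ^ D.g i j n / 2 ^ D.g i j (l + 1)) *
        eval (D.X ω) (dv (D.Φ i j ω) (l + 1) (D.Ψ i' j' ω n - D.Φ i j ω n)) := by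
  classical
  set y₀ : Fin (n - 1) → ℝ := fun r => up z (zt D i j ω (r + 1)) with hy₀
  set G : PN := D.Ψ i' j' ω n - D.Φ i j ω n with hG
  set g := D.g i j with hg
  set Φ := D.Φ i j ω with hΦe
  set x := D.X ω with hx
  set u : ℕ → ℝ := ex1 fun r : Fin (n - 1) => nat g Φ x (r + 1) with hu
  have hΦ' := tri_atT hΦ (x 0)
  -- the left side
  have d1 := hd_fin (fun (s : ℝ) (r : Fin (n - 1)) => y₀ r + if r = l then s else 0)
    (fun r => if r = l then 1 else 0) 0 (fun r => by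
      by_cases h : r = l
      · simp only [if_pos h]
        exact (hasDerivAt_id 0).const_add _
      · simp only [if_neg h]
        exact hasDerivAt_const _ _) (kp0 D n z i j i' j' ω)
  have e1 : (fun r : Fin (n - 1) => y₀ r + if r = l then (0 : ℝ) else 0) = y₀ := by
    funext r
    split_ifs <;> rw [add_zero]
  rw [e1] at d1
  have e2 : (∑ r, (if r = l then (1 : ℝ) else 0) * eval y₀ (pderiv r (kp0 D n z i j i' j' ω))) =
      eval y₀ (pderiv l (kp0 D n z i j i' j' ω)) := by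
    rw [Finset.sum_eq_single l]
    · rw [if_pos rfl, one_mul]
    · intro r _ hr
      rw [if_neg hr, zero_mul]
    · intro h
      exact absurd (Finset.mem_univ l) h
  rw [e2] at d1
  -- the right side
  have e3 : (fun s : ℝ => eval (fun r => y₀ r + if r = l then s else 0)
      (kp0 D n z i j i' j' ω)) =
      fun s => 2 ^ g n * eval (pt g (atT (x 0) Φ) (mv u (l + 1) (4 * 2 ^ z * s))) G := by
    funext s
    rw [eval_kp0, hG, map_sub]
    have e4 : spt (n - 1) z g Φ (x 0) (fun r => y₀ r + if r = l then s else 0) =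
        pt g (atT (x 0) Φ) (mv u (l + 1) (4 * 2 ^ z * s)) := by
      unfold spt
      congr 1
      funext k
      rcases Nat.eq_zero_or_pos k with rfl | hk
      · unfold mv
        rw [if_neg (by omega), hu, ex1_zero, ex1_zero]
      · obtain ⟨k', rfl⟩ : ∃ k', k = k' + 1 := ⟨k - 1, by omega⟩
        rcases Nat.lt_or_ge k' (n - 1) with hk' | hk'
        · rw [ex1_succ _ hk']
          unfold mv
          rw [hu, ex1_succ _ hk']
          have e5 : y₀ ⟨k', hk'⟩ = up z (nat g Φ x (k' + 1)) := rfl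
          simp only [e5]
          unfold up
          have hz : (4 * 2 ^ z : ℝ) ≠ 0 := by positivity
          by_cases h : k' = l
          · rw [if_pos (Fin.ext h), if_pos (by omega)]
            field_simp
            ring
          · rw [if_neg (fun h' => h (congrArg Fin.val h')), if_neg (by omega)]
            field_simp
            ring
        · have hll := l.2
          unfold mv
          rw [if_neg (by omega), hu]
          unfold ex1
          rw [dif_neg (by omega), dif_neg (by omega)]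
    rw [← e4]
  have d2 : HasDerivAt (fun s : ℝ => 2 ^ g n *
      eval (pt g (atT (x 0) Φ) (mv u (l + 1) (4 * 2 ^ z * s))) G)
      (2 ^ g n * ((1 / 2 ^ g (l + 1) *
        eval (pt g (atT (x 0) Φ) (mv u (l + 1) (4 * 2 ^ z * 0)))
          (dv (atT (x 0) Φ) (l + 1) G)) * (4 * 2 ^ z))) 0 := by
    have h1 : HasDerivAt (fun s : ℝ => 4 * 2 ^ z * s) (4 * 2 ^ z) 0 := by
      have := (hasDerivAt_id (0 : ℝ)).const_mul (4 * 2 ^ z : ℝ)
      rwa [mul_one] at this
    exact (HasDerivAt.comp (0 : ℝ) (hd_eval hΦ' g u (l + 1) (4 * 2 ^ z * 0) G) h1).const_mul _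
  rw [e3] at d1
  have h4 := d1.unique d2
  rw [h4, mul_zero, mv_zero, dv_atT _ (Nat.succ_pos _)]
  have e6 : eval (pt g (atT (x 0) Φ) u) (dv Φ (l + 1) G) = eval x (dv Φ (l + 1) G) :=
    evl_congr fun k hk => pt_own hΦ x (mem_range.1 (dv_vars hΦ _ hF hk))
  rw [e6]
  field_simp

/-! ### The path -/

/-- The degree of a polynomial along a path. -/
theorem natDegree_aeval_le {K : ℕ} (f : ℕ → ℝ[X]) (hf : ∀ i, (f i).natDegree ≤ K) (G : PN) :
    (aeval f G).natDegree ≤ G.totalDegree * K := by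
  rw [aeval_def, eval₂_eq]
  refine Polynomial.natDegree_sum_le_of_forall_le _ _ fun d hd => ?_
  refine Polynomial.natDegree_mul_le.trans ?_
  have h0 : (algebraMap ℝ ℝ[X] (coeff d G)).natDegree = 0 := by
    rw [Polynomial.algebraMap_eq, Polynomial.natDegree_C]
  rw [h0, zero_add]
  refine (Polynomial.natDegree_prod_le _ _).trans ?_
  refine (Finset.sum_le_sum (g := fun j => d j * K) fun j _ => ?_).trans ?_
  · exact Polynomial.natDegree_pow_le.trans (Nat.mul_le_mul_left _ (hf j))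
  · rw [← Finset.sum_mul]
    exact Nat.mul_le_mul_right _ (le_totalDegree hd)

theorem eval_aeval (f : ℕ → ℝ[X]) (G : PN) (θ : ℝ) :
    (aeval f G).eval θ = eval (fun k => (f k).eval θ) G := by
  rw [aeval_def, eval₂_eq, Polynomial.eval_finset_sum, eval_eq]
  refine Finset.sum_congr rfl fun d _ => ?_
  rw [Polynomial.eval_mul, Polynomial.eval_prod, Polynomial.algebraMap_eq, Polynomial.eval_C]
  congr 1
  refine Finset.prod_congr rfl fun j _ => ?_
  rw [Polynomial.eval_pow]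

/-- The path in the relative time of the window number `k` of length `2 ^ (-w)`. -/
noncomputable def pc (D : NDat2) (w k : ℕ) (x : D.Λ) (r : ℕ) : ℝ[X] :=
  (D.pa x r).comp (Polynomial.C ((k : ℝ) / 2 ^ w) + Polynomial.C (1 / 2 ^ w) * Polynomial.X)

theorem pc_deg (D : NDat2) {K : ℕ} (h : ∀ x l, (D.pa x l).natDegree ≤ K) (w k : ℕ) (x : D.Λ)
    (r : ℕ) : (pc D w k x r).natDegree ≤ K := by
  unfold pc
  refine Polynomial.natDegree_comp_le.trans ?_
  have h1 : (Polynomial.C ((k : ℝ) / 2 ^ w) +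
      Polynomial.C (1 / 2 ^ w) * Polynomial.X : ℝ[X]).natDegree ≤ 1 := by
    refine (Polynomial.natDegree_add_le _ _).trans (max_le ?_ ?_)
    · rw [Polynomial.natDegree_C]
      exact Nat.zero_le _
    · exact (Polynomial.natDegree_C_mul_le _ _).trans Polynomial.natDegree_X_le
  calc (D.pa x r).natDegree * _ ≤ K * 1 := Nat.mul_le_mul (h x r) h1
    _ = K := Nat.mul_one K

theorem time_eq {J w T : ℕ} (h : w ≤ J) :
    (T : ℝ) / 2 ^ J = ((T / 2 ^ (J - w) : ℕ) : ℝ) / 2 ^ w +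
      1 / 2 ^ w * (((T % 2 ^ (J - w) : ℕ) : ℝ) / 2 ^ (J - w)) := by
  have h1 : ((2 ^ (J - w) * (T / 2 ^ (J - w)) + T % 2 ^ (J - w) : ℕ) : ℝ) = T := by
    exact_mod_cast Nat.div_add_mod T (2 ^ (J - w))
  have h2 : (2 : ℝ) ^ J = 2 ^ w * 2 ^ (J - w) := by
    rw [← pow_add]
    congr 1
    omega
  rw [← h1, h2]
  push_cast
  field_simp

theorem eval_pc (D : NDat2) {J w n : ℕ} (h : w ≤ J) {ω : D.Ω}
    (hX : D.X ω 0 = (D.T ω : ℝ) / 2 ^ J)
    (hs : ∀ l ≤ n, D.X ω l = (D.pa (D.ln ω) l).eval (D.X ω 0)) {r : ℕ} (hr : r ≤ n) :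
    (pc D w (D.T ω / 2 ^ (J - w)) (D.ln ω) r).eval ((thr D J w ω : ℝ) / 2 ^ (J - w)) =
      D.X ω r := by
  unfold pc
  rw [Polynomial.eval_comp, hs r hr]
  congr 1
  rw [Polynomial.eval_add, Polynomial.eval_C, Polynomial.eval_mul, Polynomial.eval_C,
    Polynomial.eval_X, hX, time_eq h]
  rfl

end Pool.MicA
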