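import Pool.Agent.H7.MICA.Hyp
import Pool.Agent.H12.MICA.Gdk

/-!
# The own shape is not truncated, over one own leaf
-/

set_option autoImplicit false

namespace Pool.MicA

open Finset MvPolynomial
open Pool.Agent.H49.Ent Pool.Agent.H32.Dense Pool.STK Pool.STAT Pool.MIC Pool.MIC.Frm Pool.LBL
open Pool.BFL (Pl Pb)

/-- Copy of `gdk_stmt` (H12/MICA/Gdk.lean) over one own leaf. -/
theorem gdkA_stmt : GdkAStmt := by
  intro n K K₀ lam gam C₁ hn hC₁ hK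
  obtain ⟨C, hC0, hC⟩ := P0_coef n K
  obtain ⟨N₀, hN₀⟩ := scl_coef (n - 1) K₀
  obtain ⟨N, hN⟩ := pow_unbounded_of_one_lt (C + 1) (one_lt_two : (1 : ℝ) < 2)
  refine ⟨N + 2 + N₀, ?_⟩
  intro e he
  obtain ⟨κ, z₀, hκ, h⟩ := UniP.uniOwn_ful n K 1 1 e hn le_rfl one_pos he
  refine ⟨κ, max z₀ 1, hκ, ?_⟩
  intro J a₀ w₀ z M i j i' j' X bb D q hz hi hj hi' hj' hF hg hzX hbb hO hV
  have hz1 : 1 ≤ z := (le_max_right _ _).trans hz
  refine le_trans (Pb_supp hO.isLaw.nonneg fun ω hω hb => ?_)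
    (h J a₀ w₀ z M i j i' j' z lam gam κ C₁ D q ((le_max_left _ _).trans hz) hi.le hj hi' hj'
      le_rfl (by omega) hO hV)
  intro hc
  refine hb fun α hα => ?_
  have h1 := hC J a₀ w₀ z M lam gam κ C₁ (Real.exp (1 * z)) D q hO i j i' j' ω hc
  rw [kpR_eq hO hn hF (by omega) hg]
  have h2 := hN₀ z (Sp K₀ X (rk X (P0 D n i j i' j' ω))) (C * Real.exp (1 * z) + 1) hz1
    (Sp_deg _ _ _) (by positivity) (Sp_coef ((deg_P0 hO i j i' j' ω).trans hK) h1) α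
  refine h2.trans ?_
  have e1 : Real.exp (1 * z) ≤ 2 ^ (2 * z) := by
    rw [one_mul, pow_mul]
    have e2 : Real.exp (z : ℝ) = Real.exp 1 ^ z := by
      rw [← Real.exp_nat_mul, mul_one]
    rw [e2]
    refine pow_le_pow_left₀ (Real.exp_pos 1).le ?_ z
    have := Real.exp_one_lt_d9
    linarith
  have e3 : C * Real.exp (1 * z) + 1 ≤ (C + 1) * 2 ^ (2 * z) := by
    have e4 : (1 : ℝ) ≤ 2 ^ (2 * z) := one_le_pow₀ one_le_two
    nlinarith
  have e5 : (C + 1) * 2 ^ (2 * z) ≤ 2 ^ (N * z) * 2 ^ (2 * z) := by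
    refine mul_le_mul_of_nonneg_right ?_ (by positivity)
    exact hN.le.trans (pow_le_pow_right₀ one_le_two (Nat.le_mul_of_pos_right _ (by omega)))
  calc (C * Real.exp (1 * z) + 1) * 2 ^ (N₀ * z)
      ≤ (2 ^ (N * z) * 2 ^ (2 * z)) * 2 ^ (N₀ * z) :=
        mul_le_mul_of_nonneg_right (e3.trans e5) (by positivity)
    _ = 2 ^ ((N + 2 + N₀) * z) := by
        rw [← pow_add, ← pow_add]
        congr 1
        ring
    _ ≤ 2 ^ bb := pow_le_pow_right₀ one_le_two hbb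

end Pool.MicA
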