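import Pool.Agent.H46.MicA.Typ
import Pool.Agent.H46.MicA.EntA
import Pool.Agent.H46.MicA.GdkA
import Pool.Agent.H12.MICA.Tm

/-!
# The local theorem at a pair, no base coordinate has the weight of the target
-/

set_option autoImplicit false

namespace Pool.MicA

open Finset MvPolynomial
open Pool.Agent.H49.Ent Pool.Agent.H32.Dense Pool.STK Pool.STAT Pool.MIC Pool.MIC.Frm Pool.LBL
open Pool.STAT.AdxRow
open Pool.BFL (Pl Pb)
open Pool.K2S (cpn)
open Pool.STAT.Glu (EvK)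
open scoped Polynomial

section

variable {D : NDat2} {n K J a₀ w₀ z M : ℕ} {lam gam : ℕ → ℝ} {κ C₁ : ℝ} {q : D.Ω → ℝ}

/-- The position is a function of the line, the window and the time. -/
theorem Y_det (hO : D.Ok2 n K J a₀ w₀ z M lam gam κ C₁ q) {i j : ℕ} (hi : i ≤ M)
    (hj : j ≤ M) (w X : ℕ) : Det q (fun ω => (D.wn J w ω, (D.c i j ω, thr D J w ω)))
      (Y1 D n z i j X) := by
  intro ω ω' hω hω' h
  have h1 : D.wn J w ω = D.wn J w ω' := (Prod.ext_iff.1 h).1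
  have h2 : D.c i j ω = D.c i j ω' := (Prod.ext_iff.1 (Prod.ext_iff.1 h).2).1
  have h3 : thr D J w ω = thr D J w ω' := (Prod.ext_iff.1 (Prod.ext_iff.1 h).2).2
  have h4 : D.ln ω = D.ln ω' := (Prod.ext_iff.1 h1).1
  have h5 : D.T ω / 2 ^ (J - w) = D.T ω' / 2 ^ (J - w) := (Prod.ext_iff.1 h1).2
  have hT : D.T ω = D.T ω' := by
    unfold thr at h3
    rw [← Nat.div_add_mod (D.T ω) (2 ^ (J - w)), h5, h3, Nat.div_add_mod]
  have hX0 : D.X ω 0 = D.X ω' 0 := by rw [hO.X_zero, hO.X_zero, hT]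
  have hX : ∀ l ≤ n, D.X ω l = D.X ω' l := fun l hl => by
    rw [hO.str ω hω l hl, hO.str ω' hω' l hl, h4, hX0]
  rw [Y1_eq hO hi hj hω, Y1_eq hO hi hj hω']
  funext l
  have hl : (l : ℕ) + 1 ≤ n := by
    have := l.2
    omega
  have e1 : zt D i j ω (l + 1) = zt D i j ω' (l + 1) := by
    unfold zt nat
    have e2 : D.Φ i j ω = D.Φ i j ω' := by
      unfold NDat2.Φ
      rw [h2]
    rw [e2, hX _ hl]
    congr 2
    refine evl_congr fun k hk => hX k ?_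
    have := mem_range.1 (hO.P_tri _ _ _ _ hk)
    omega
  unfold Yp
  rw [e1]

theorem kpA_deg (D : NDat2) (n K₀ z i j i' j' X bb : ℕ) (ω : D.Ω) :
    (kpA D n K₀ z i j i' j' X bb ω).totalDegree ≤ K₀ := by
  classical
  unfold kpA
  split_ifs
  · refine (totalDegree_sub _ _).trans (max_le ?_ ?_)
    · unfold kpR
      exact (deg_scl _ _ _).trans (Sp_deg _ _ _)
    · rw [totalDegree_C]
      exact Nat.zero_le _
  · rw [totalDegree_zero]
    exact Nat.zero_le _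

theorem kpA_cf (D : NDat2) (n K₀ z i j i' j' X bb : ℕ) (ω : D.Ω) (α : Fin (n - 1) →₀ ℕ) :
    |coeff α (kpA D n K₀ z i j i' j' X bb ω)| ≤ 2 ^ bb := by
  classical
  unfold kpA
  split_ifs with h
  · by_cases hα : α = 0
    · subst hα
      rw [coeff_sub, coeff_C, if_pos rfl, sub_self, abs_zero]
      positivity
    · rw [coeff_sub, coeff_C, if_neg (Ne.symm hα), sub_zero]
      exact h α hα
  · rw [coeff_zero, abs_zero]
    positivity

theorem hgt_A (hO : D.Ok2 n K J a₀ w₀ z M lam gam κ C₁ q) {i j : ℕ} (hi : i ≤ M)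
    (hj : j ≤ M) (K₀ i' j' X bb : ℕ) {ω : D.Ω} (hω : 0 < q ω) :
    |((nuA D n i j X ω : ℤ) : ℝ) - (htA D n K₀ z i j i' j' X bb ω : ℤ) - 2 ^ X *
      eval (fun l => (Y1 D n z i j X ω l : ℝ) / 2 ^ X) (kpA D n K₀ z i j i' j' X bb ω)| ≤ 1 := by
  rw [Y1_eq hO hi hj hω]
  unfold htA
  push_cast
  set x := (2 : ℝ) ^ X * eval (fun l => (Yp D n z i j X ω l : ℝ) / 2 ^ X)
    (kpA D n K₀ z i j i' j' X bb ω) with hx
  have h1 := Int.floor_le x
  have h2 := Int.lt_floor_add_one x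
  have e : (nuA D n i j X ω : ℝ) - ((nuA D n i j X ω : ℝ) - (⌊x⌋ : ℝ)) - x = (⌊x⌋ : ℝ) - x := by
    ring
  rw [e, abs_le]
  constructor <;> linarith

/-- Conditional entropies and equality on the support. -/
theorem CH_ae {Ω S T : Type} [Fintype Ω] {p : Ω → ℝ} (hp : ∀ ω, 0 ≤ p ω) {X X' : Ω → S}
    {W W' : Ω → T} (h : ∀ ω, 0 < p ω → X ω = X' ω) (h' : ∀ ω, 0 < p ω → W ω = W' ω) :
    CH p X W = CH p X' W' := by
  refine CH_congr hp ?_ ?_ ?_ ?_
  · intro ω ω' a b e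
    rw [← h ω a, ← h ω' b]
    exact (Prod.ext_iff.1 e).1
  · intro ω ω' a b e
    rw [h ω a, h ω' b]
    exact (Prod.ext_iff.1 e).1
  · intro ω ω' a b e
    rw [← h' ω a, ← h' ω' b]
    exact e
  · intro ω ω' a b e
    rw [h' ω a, h' ω' b]
    exact e

end

/-- **The local theorem at a pair.** -/
theorem locA : MicOutA CondN := by
  classical
  intro n K B R V lam gam C₁ h hn hB hR hlam hgam hgn hC₁ hh hh1 hQ
  obtain ⟨hQA, hne⟩ := hQ
  have hl2 : 0 < Real.log 2 := Real.log_pos (by norm_num)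
  set K₀ := K * (K + 1) ^ n with hK₀
  obtain ⟨E, nn, hTyp⟩ := typ_thm n K lam gam C₁ hn hC₁ hlam hgam hne
  obtain ⟨A₂, a, A, K₂, N, c₁, C, hVa, hc₁, hC, hmic⟩ := mic1_thm (n - 1) nn K₀ E V 1 (h / 2)
    le_rfl (by positivity) (by linarith)
  obtain ⟨CE, hCE, hEnt⟩ := entA_stmt n K K₀ B R lam gam C₁ h hn hB hR hgn hC₁ hh hh1 le_rfl
  obtain ⟨Cb, hGdk⟩ := gdkA_stmt n K K₀ lam gam C₁ hn hC₁ le_rfl
  refine ⟨A₂, a, K₂, c₁ / 2, hVa, by positivity, ?_⟩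
  intro m₀
  obtain ⟨bE, hbE⟩ := exists_nat_ge CE
  obtain ⟨bbn, hbbn⟩ : ∃ bbn : ℕ, bbn = Cb + bE := ⟨_, rfl⟩
  obtain ⟨θn, hθn⟩ := exists_nat_ge (CE * bbn + 3)
  obtain ⟨m₁, hm₁⟩ := exists_nat_ge (C * (θn + 1))
  obtain ⟨m, hm⟩ : ∃ m : ℕ, m = m₀ + m₁ + bbn + 2 := ⟨_, rfl⟩
  obtain ⟨S, hS⟩ : ∃ S : ℕ, S = A * m := ⟨_, rfl⟩
  obtain ⟨dT, c, z₁, κ₁, hκ₁, hTyp1⟩ := hTyp S (c₁ / 2) (by positivity)
  obtain ⟨N₁, hN₁⟩ := exists_nat_ge C₁
  obtain ⟨d, hd⟩ : ∃ d : ℕ, d = dT + 2 * N₁ := ⟨_, rfl⟩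
  obtain ⟨U₁, hU₁⟩ := exists_nat_ge (C * S)
  obtain ⟨U₂, hU₂⟩ := exists_nat_ge (2 * (CE * bbn + 1) / (h * Real.log 2))
  obtain ⟨U, hU⟩ : ∃ U : ℕ, U = a * m + S + c + U₁ + U₂ + 1 := ⟨_, rfl⟩
  have hU1 : (1 : ℝ) ≤ U := by exact_mod_cast (by omega : 1 ≤ U)
  obtain ⟨eG, heG⟩ : ∃ eG : ℝ, eG = min (c₁ / 2) (1 / (CE * U)) := ⟨_, rfl⟩
  have heG0 : 0 < eG := by
    rw [heG]
    exact lt_min (by positivity) (by positivity)
  obtain ⟨κ₂, z₂, hκ₂, hGdk1⟩ := hGdk eG heG0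
  obtain ⟨κ₃, z₃, hκ₃, hSep⟩ := sep_stmt c₁ hc₁
  refine ⟨m, U, bbn, d, by omega, by omega, fun M => ?_⟩
  refine ⟨min (min κ₁ κ₂) (min κ₃ (1 / (N + 1))), 1, max (max z₁ z₂) (max z₃ 1), ?_,
    one_pos, ?_⟩
  · exact lt_min (lt_min hκ₁ hκ₂) (lt_min hκ₃ (by positivity))
  intro J a₀ w₀ z i j i' j' D q hz hgeo hO hL hNF hT
  set κ := min (min κ₁ κ₂) (min κ₃ (1 / (N + 1))) with hκ
  have hκle1 : κ ≤ κ₁ := (min_le_left _ _).trans (min_le_left _ _)
  have hκle2 : κ ≤ κ₂ := (min_le_left _ _).trans (min_le_right _ _)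
  have hκle3 : κ ≤ κ₃ := (min_le_right _ _).trans (min_le_left _ _)
  have hκle4 : κ ≤ 1 / (N + 1) := (min_le_right _ _).trans (min_le_right _ _)
  have hκ0 : 0 < κ := lt_min (lt_min hκ₁ hκ₂) (lt_min hκ₃ (by positivity))
  have hN0 : (0 : ℝ) ≤ N := Nat.cast_nonneg N
  have hκle5 : κ ≤ 1 := by
    refine hκle4.trans ?_
    rw [div_le_one (by positivity)]
    linarith
  have hz1 : z₁ ≤ z := ((le_max_left _ _).trans (le_max_left _ _)).trans hz
  have hz2 : z₂ ≤ z := ((le_max_right _ _).trans (le_max_left _ _)).trans hz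
  have hz3 : z₃ ≤ z := ((le_max_left _ _).trans (le_max_right _ _)).trans hz
  have hz4 : 1 ≤ z := ((le_max_right _ _).trans (le_max_right _ _)).trans hz
  have hz0 : (0 : ℝ) ≤ z := Nat.cast_nonneg z
  have hzR : (1 : ℝ) ≤ z := by exact_mod_cast hz4
  have hT' : ∀ κ' : ℝ, κ ≤ κ' → D.TmU J w₀ z κ' q := by
    intro κ' hκ'
    unfold NDat2.TmU at hT ⊢
    have : κ * (z : ℝ) ≤ κ' * z := mul_le_mul_of_nonneg_right hκ' hz0
    linarith
  obtain ⟨g1, g2, g3, g4, g5, g6, g7, g8, g9, g10⟩ := hgeo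
  obtain ⟨i1, i2, i3, i4⟩ := g1
  obtain ⟨i5, i6, i7, i8⟩ := g2
  have hRU : U ≤ R * U := Nat.le_mul_of_pos_left _ hR
  have ha1 : 1 ≤ a := by omega
  have hmU : m ≤ U := by
    have := Nat.mul_le_mul_right m ha1
    omega
  have hi : i ≤ M := by omega
  have hj : j ≤ M := by omega
  have hi' : i' ≤ M := by omega
  have hj' : j' ≤ M := by omega
  obtain ⟨w, hw⟩ : ∃ w, w = w₀ + j * z := ⟨_, rfl⟩
  have hq := hO.isLaw
  -- monotone levels
  have hF : Fat D n i j i' j' := fun r h1 h2 =>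
    (g9 r h1 h2).trans (g_mono hO hN₁ (by omega) hi hj h1 h2.le)
  have hBU : 1 ≤ B * U := Nat.mul_pos hB (by omega)
  have hful : ∀ κ' : ℝ, κ ≤ κ' → ∀ i₁, i ≤ i₁ + dT → i₁ ≤ i + dT →
      UniD.Ful D n i₁ j z (κ' * z) q (fun ω => (D.s i' j' ω, (D.c i₁ j ω, D.T ω))) :=
    fun κ' hκ' i₁ h1 h2 => Ful_mono (hL.ful1 (by omega) (by omega) hBU)
      (mul_le_mul_of_nonneg_right hκ' hz0)
  have hgn' : D.g i j n + U * z ≤ D.g i' j' n := by
    have := g_mono hO hN₁ (i₁ := i) (i₂ := i + d) (by omega) (by omega) hj hn le_rfl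
    omega
  have hgn'' : D.g (i + dT) j n ≤ D.g i' j' n := by
    have := g_mono hO hN₁ (i₁ := i + dT) (i₂ := i + d) (by omega) (by omega) hj hn le_rfl
    omega
  obtain ⟨X, hX⟩ : ∃ X, X = U * z := ⟨_, rfl⟩
  obtain ⟨bb, hbb⟩ : ∃ bb, bb = bbn * z := ⟨_, rfl⟩
  have hzX : z ≤ X := by
    rw [hX]
    exact Nat.le_mul_of_pos_left _ (by omega)
  have hwJ : w ≤ J ∧ w + m * z ≤ J := by
    have h1 := hO.thin
    have h2 := hO.top
    have h3 : j * z ≤ (M + 1) * z := Nat.mul_le_mul_right _ (by omega)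
    have h4 : m * z ≤ (M + 1) * z := Nat.mul_le_mul_right _ (by omega)
    rw [hw]
    omega
  -- the error events
  have hPG : Pb q (fun ω => ¬ Gdk D n K₀ z i j i' j' X bb ω) ≤ eG :=
    hGdk1 J a₀ w₀ z M i j i' j' X bb D q hz2 (by omega) hj hi' hj' hF (by rw [hX]; exact hgn')
      hzX (by rw [hbb, hbbn]; exact Nat.mul_le_mul_right _ (by omega))
      (hO.mono_κ hκle2) (hful κ₂ hκle2 i (by omega) (by omega))
  have hPG0 : 0 ≤ Pb q (fun ω => ¬ Gdk D n K₀ z i j i' j' X bb ω) := Pb_nonneg hq.nonneg _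
  have hXR : (X : ℝ) = U * z := by rw [hX]; push_cast; ring
  have hbbR : (bb : ℝ) = bbn * z := by rw [hbb]; push_cast; ring
  have hCE0 : 0 < CE := by linarith
  have herr : CE * bb + CE * (U * z) * Pb q (fun ω => ¬ Gdk D n K₀ z i j i' j' X bb ω) ≤
      (CE * bbn + 1) * z := by
    have e1 : CE * (U * z) * Pb q (fun ω => ¬ Gdk D n K₀ z i j i' j' X bb ω) ≤
        CE * (U * z) * (1 / (CE * U)) := by
      refine mul_le_mul_of_nonneg_left (hPG.trans ?_) (by positivity)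
      rw [heG]
      exact min_le_right _ _
    have e2 : CE * (U * z) * (1 / (CE * U)) = z := by field_simp
    rw [hbbR]
    nlinarith
  -- the entropies
  obtain ⟨hE1, hE2, hE3⟩ := hEnt J a₀ w₀ z M i j i' j' d U bb κ 1 D q hz4 hκ0.le hκle5 le_rfl
    (by omega) g5 g6 ⟨i1, i2, i3, i4⟩ ⟨i5, i6, i7, i8⟩ g3 g4 hF hgn'
    (by
      rw [hbbR]
      refine mul_le_mul_of_nonneg_right ?_ hz0
      rw [hbbn]
      push_cast
      have : (0 : ℝ) ≤ Cb := Nat.cast_nonneg _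
      linarith) hO hNF hL
  rw [← hw, ← hX] at hE1 hE2 hE3
  obtain ⟨β, g, hty⟩ := hTyp1 J a₀ w₀ z M i j i' j' U bb D q hz1 (by omega) (by omega) hj hi' hj'
    hF hgn'' hgn' (by omega) (hO.mono_κ hκle1) (hful κ₁ hκle1) (hT' κ₁ hκle1)
  rw [← hw, ← hX, ← hK₀] at hty
  -- the hypotheses of the local theorem
  obtain ⟨θ, hθ⟩ : ∃ θ : ℝ, θ = θn * z := ⟨_, rfl⟩
  have hθ1 : (CE * bbn + 1) * z + 2 * z ≤ θ := by
    rw [hθ, ← add_mul]
    refine mul_le_mul_of_nonneg_right ?_ hz0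
    linarith
  have hY : ∀ ω, 0 < q ω → Y1 D n z i j X ω = Yp D n z i j X ω := fun ω hω =>
    Y1_eq hO hi hj hω X
  have hH : MicH q (D.wn J w) (D.c i j) (D.wn J w) (thr D J w) (Y1 D n z i j X)
      (nuA D n i j X) (htA D n K₀ z i j i' j' X bb) (kpA D n K₀ z i j i' j' X bb) β g nn K₀ N
      (J - w) X (m * z) (S * z) bb 1 θ (h / 2) c₁ := by
    refine ⟨hq, ?_, fun _ _ _ _ e => e, Y_det hO hi hj w X, ?_, Y1_lt D n z i j X,
      kpA_deg D n K₀ z i j i' j' X bb, kpA_cf D n K₀ z i j i' j' X bb,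
      fun ω hω => hgt_A hO hi hj K₀ i' j' X bb hω, ?_, ?_, ?_, ?_, ?_, ?_⟩
    · rw [hw]
      exact hO.c_wn i hi j hj
    · intro ω
      exact (Nat.mod_lt _ (by positivity)).le
    · -- shape
      have e1 := CH_ae hq.nonneg (X := kpA D n K₀ z i j i' j' X bb)
        (X' := kpA D n K₀ z i j i' j' X bb)
        (W := fun ω => (nuA D n i j X ω, (Y1 D n z i j X ω, (D.c i j ω, thr D J w ω))))
        (W' := fun ω => (nuA D n i j X ω, (Yp D n z i j X ω, (D.c i j ω, thr D J w ω))))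
        (fun _ _ => rfl) (fun ω hω => by simp only [hY ω hω])
      rw [e1]
      linarith
    · -- full
      have e1 := CH_ae hq.nonneg (X := Y1 D n z i j X) (X' := Yp D n z i j X)
        (W := fun ω => (htA D n K₀ z i j i' j' X bb ω,
          (kpA D n K₀ z i j i' j' X bb ω, (D.c i j ω, thr D J w ω))))
        (W' := fun ω => (htA D n K₀ z i j i' j' X bb ω,
          (kpA D n K₀ z i j i' j' X bb ω, (D.c i j ω, thr D J w ω))))
        hY (fun _ _ => rfl)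
      rw [e1]
      linarith
    · -- times
      have e1 := times_stmt J w₀ w z N κ D q D.Γ (D.c i j) (by omega) hwJ.1 hq hO.T_lt hO.ln_w hT
        (by rw [hw]; exact hO.c_wn i hi j hj) (by rw [hw]; exact hO.c_T i hi j hj)
      have e2 : ((N : ℝ) + 1) * (κ * z) ≤ z := by
        have e3 : ((N : ℝ) + 1) * κ ≤ 1 := by
          have := mul_le_mul_of_nonneg_left hκle4 (by positivity : (0 : ℝ) ≤ (N : ℝ) + 1)
          rwa [mul_one_div, div_self (by positivity)] at this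
        nlinarith
      have e4 : 0 ≤ (CE * bbn + 1) * z := by positivity
      refine e1.trans ?_
      linarith
    · -- nfull
      have e1 := CH_ae hq.nonneg (X := nuA D n i j X) (X' := nuA D n i j X)
        (W := fun ω => (Y1 D n z i j X ω, (D.c i j ω, thr D J w ω)))
        (W' := fun ω => (Yp D n z i j X ω, (D.c i j ω, thr D J w ω)))
        (fun _ _ => rfl) (fun ω hω => by simp only [hY ω hω])
      rw [e1]
      refine hE3.trans ?_
      have e2 : (CE * bbn + 1) * z ≤ h / 2 * (X * Real.log 2) := by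
        rw [hXR]
        have e3 : 2 * (CE * bbn + 1) / (h * Real.log 2) ≤ U := by
          refine hU₂.trans ?_
          exact_mod_cast (by omega : U₂ ≤ U)
        rw [div_le_iff₀ (by positivity)] at e3
        nlinarith
      linarith
    · -- typical samples
      refine hty.trans ?_
      have e1 : eG ≤ c₁ / 2 := by
        rw [heG]
        exact min_le_left _ _
      linarith
    · exact hSep J w₀ w z (m * z) D q hz3 (Nat.le_mul_of_pos_left _ (by omega)) (by omega)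
        hwJ.2 hq hO.T_lt hO.ln_w (hT' κ₃ hκle3)
  have hmR : C * (θn + 1) ≤ m := by
    refine hm₁.trans ?_
    exact_mod_cast (by omega : m₁ ≤ m)
  have q1 : C * (θ + 1) ≤ ((m * z : ℕ) : ℝ) := by
    push_cast
    rw [hθ]
    have e1 : C * ((θn : ℝ) * z + 1) ≤ C * ((θn + 1) * z) := by
      refine mul_le_mul_of_nonneg_left ?_ (by linarith)
      nlinarith
    nlinarith
  have q2 : bb + 2 ≤ m * z := by
    rw [hbb, hm]
    nlinarith
  have q3 : A * (m * z) ≤ S * z := by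
    rw [hS, Nat.mul_assoc]
  have q4 : C * ((S * z : ℕ) : ℝ) ≤ X := by
    rw [hXR]
    push_cast
    have e1 : C * S ≤ U := by
      refine hU₁.trans ?_
      exact_mod_cast (by omega : U₁ ≤ U)
    nlinarith
  obtain ⟨H, hH1, hH2⟩ := hmic D.Ω (D.Λ × ℕ) D.Γ (D.Λ × ℕ) q (D.wn J w) (D.c i j) (D.wn J w)
    (thr D J w) (Y1 D n z i j X) (nuA D n i j X) (htA D n K₀ z i j i' j' X bb)
    (kpA D n K₀ z i j i' j' X bb) β g (J - w) X (m * z) (S * z) bb θ
    (by rw [hθ]; positivity) q1 q2 q3 q4 hH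
  refine ⟨H, hH1, ?_⟩
  -- intersection with `Gdk`
  have e0 : eG ≤ c₁ / 2 := by
    rw [heG]
    exact min_le_left _ _
  set P : D.Ω → Prop := fun ω => ∀ y : Fin (n - 1) → ℝ, (∀ l, |y l| ≤ 1) → ∀ l,
    |eval y (pderiv l (kpA D n K₀ z i j i' j' X bb ω)) -
      eval (Fin.cons ((thr D J w ω : ℝ) / 2 ^ (J - w)) y : Fin (n - 1 + 1) → ℝ)
        (pderiv l.succ (H (D.wn J w ω)
          ⌊(thr D J w ω : ℝ) / 2 ^ (J - w) * 2 ^ (A₂ * (m * z))⌋))| * 2 ^ (a * (m * z)) ≤ 2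
    with hP
  have hP1 : c₁ ≤ Pb q P := hH2
  have e1 : Pb q P ≤ Pb q (fun ω => EvK D n K₀ J w₀ z i j i' j' (U * z) (bbn * z)
      ((A₂ * m) * z) ((a * m) * z) H ω) +
      Pb q (fun ω => ¬ Gdk D n K₀ z i j i' j' X bb ω) := by
    refine le_trans (Pb_mono_ae hq.nonneg fun ω _ hω => ?_) (Pb_or2 hq.nonneg _ _)
    by_cases hG : Gdk D n K₀ z i j i' j' X bb ω
    · left
      rw [hX, hbb] at hG
      refine ⟨hG, ?_⟩
      rw [← hw, ← hX, ← hbb, mul_assoc, mul_assoc]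
      exact hω
    · exact Or.inr hG
  have e2 : c₁ / 2 ≤ Pb q (fun ω => EvK D n K₀ J w₀ z i j i' j' (U * z) (bbn * z)
      ((A₂ * m) * z) ((a * m) * z) H ω) := by linarith
  exact e2

end Pool.MicA
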