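import Pool.Agent.H46.MicA.Der
import Pool.Agent.H20.MICA.Uni

/-!
# The gradient of the own shape along the path
-/

set_option autoImplicit false

namespace Pool.MicA

open Finset MvPolynomial
open Pool.Agent.H49.Ent Pool.Agent.H32.Dense Pool.STK Pool.STAT Pool.MIC Pool.MIC.Frm Pool.LBL
open Pool.STAT.AdxRow
open Pool.BFL (Pl Pb)
open scoped Polynomial

section rates

variable {D : NDat2} {n K J a₀ w₀ z M : ℕ} {lam gam : ℕ → ℝ} {κ C₁ : ℝ} {q : D.Ω → ℝ}

/-- Levels at two radii. -/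
theorem g_diff (hO : D.Ok2 n K J a₀ w₀ z M lam gam κ C₁ q) {i₁ d j r : ℕ}
    (h2 : i₁ + d ≤ M) (hj : j ≤ M) (hr : 1 ≤ r) (hr' : r ≤ n) :
    |(D.g (i₁ + d) j r : ℝ) - D.g i₁ j r - lam r * d * z| ≤ 2 * C₁ * z := by
  have e1 := hO.hom i₁ (by omega) j hj r hr hr'
  have e2 := hO.hom (i₁ + d) h2 j hj r hr hr'
  rw [abs_le] at e1 e2 ⊢
  push_cast at e2
  constructor <;> nlinarith [e1.1, e1.2, e2.1, e2.2]

theorem g_mono (hO : D.Ok2 n K J a₀ w₀ z M lam gam κ C₁ q) {N₁ : ℕ} (hN : C₁ ≤ N₁)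
    {i₁ i₂ j r : ℕ} (h1 : i₁ + 2 * N₁ ≤ i₂) (h2 : i₂ ≤ M) (hj : j ≤ M) (hr : 1 ≤ r)
    (hr' : r ≤ n) : D.g i₁ j r ≤ D.g i₂ j r := by
  obtain ⟨d, rfl⟩ : ∃ d, i₂ = i₁ + d := ⟨i₂ - i₁, by omega⟩
  have e1 := g_diff hO h2 hj hr hr'
  have hd : (2 * N₁ : ℝ) ≤ d := by exact_mod_cast (by omega : 2 * N₁ ≤ d)
  have hl := hO.lam_ge r
  have hz : (0 : ℝ) ≤ z := Nat.cast_nonneg z
  have hd0 : (0 : ℝ) ≤ d := Nat.cast_nonneg d
  have h3 : 2 * C₁ * z ≤ lam r * d * z := by
    refine mul_le_mul_of_nonneg_right ?_ hz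
    nlinarith
  have h4 := (abs_le.1 e1).1
  have h5 : (D.g i₁ j r : ℝ) ≤ D.g (i₁ + d) j r := by linarith
  exact_mod_cast h5

end rates

/-- The polynomial of the gradient at one sample. -/
noncomputable def Gp (D : NDat2) (n J w z i j : ℕ) (il : ℕ → ℕ) (ω : D.Ω) (l : Fin (n - 1)) :
    ℝ[X] :=
  Polynomial.C (4 * 2 ^ z * ((2 : ℝ) ^ D.g i j n / 2 ^ D.g i j (l + 1))) *
    aeval (pc D w (D.T ω / 2 ^ (J - w)) (D.ln ω))
      (cp n (D.Φ i j ω) (fun l => D.Φ (il l) j ω) n (l + 1) -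
        dv (D.Φ i j ω) (l + 1) (D.Φ i j ω n))

open Classical in
/-- The polynomial of the gradient for a line and a window. -/
noncomputable def Gf (D : NDat2) (n J w z i j : ℕ) (il : ℕ → ℕ) (q : D.Ω → ℝ) (x : D.Λ × ℕ)
    (l : Fin (n - 1)) : ℝ[X] :=
  if h : ∃ ω, 0 < q ω ∧ D.wn J w ω = x then Gp D n J w z i j il h.choose l else 0

theorem Gf_eq {D : NDat2} {n J w z i j : ℕ} {il : ℕ → ℕ} {q : D.Ω → ℝ}
    (h0 : Det q (D.wn J w) (D.c i j)) (hl : ∀ l, Det q (D.wn J w) (D.c (il l) j)) {ω : D.Ω}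
    (hω : 0 < q ω) (l : Fin (n - 1)) :
    Gf D n J w z i j il q (D.wn J w ω) l = Gp D n J w z i j il ω l := by
  classical
  have h : ∃ ω', 0 < q ω' ∧ D.wn J w ω' = D.wn J w ω := ⟨ω, hω, rfl⟩
  unfold Gf
  rw [dif_pos h]
  have h1 := h.choose_spec
  set ω' := h.choose with hω'
  have e1 : D.c i j ω' = D.c i j ω := h0 _ _ h1.1 hω h1.2
  have e2 : ∀ l, D.c (il l) j ω' = D.c (il l) j ω := fun l => hl l _ _ h1.1 hω h1.2
  have e3 : D.ln ω' = D.ln ω := (Prod.ext_iff.1 h1.2).1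
  have e4 : D.T ω' / 2 ^ (J - w) = D.T ω / 2 ^ (J - w) := (Prod.ext_iff.1 h1.2).2
  unfold Gp NDat2.Φ
  rw [e1, e3, e4]
  simp only [e2]

theorem Pb_or2 {Ω : Type} [Fintype Ω] {p : Ω → ℝ} (hp : ∀ ω, 0 ≤ p ω) (A B : Ω → Prop) :
    Pb p (fun ω => A ω ∨ B ω) ≤ Pb p A + Pb p B := by
  classical
  unfold Pb
  rw [← Finset.sum_add_distrib]
  refine Finset.sum_le_sum fun ω _ => ?_
  have := hp ω
  by_cases hA : A ω <;> by_cases hB : B ω <;> simp [hA, hB] <;> linarith

/-- **The gradient of the own shape along the path** is a polynomial in the time; no base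
coordinate has the weight of the target; the base is full given the own label at the radii near
`i`. -/
def GradAStmt : Prop :=
  ∀ (n K : ℕ) (lam gam : ℕ → ℝ) (C₁ : ℝ), 1 ≤ n → 1 ≤ C₁ → (∀ l, 1 ≤ lam l) →
    (∀ l, 0 ≤ gam l) → (∀ l, 1 ≤ l → l < n → lam l ≠ lam n) → ∃ nn : ℕ, ∀ (S : ℕ) (e : ℝ), 0 < e →
    ∃ (d : ℕ) (κ : ℝ) (z₀ : ℕ), 0 < κ ∧
    ∀ (J a₀ w₀ z M i j i' j' : ℕ) (D : NDat2) (q : D.Ω → ℝ), z₀ ≤ z → d ≤ i →
      i + d < M → j ≤ M → i' ≤ M → j' ≤ M → D.g (i + d) j n ≤ D.g i' j' n →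
      D.Ok2 n K J a₀ w₀ z M lam gam κ C₁ q →
      (∀ i₁, i ≤ i₁ + d → i₁ ≤ i + d → UniD.Ful D n i₁ j z (κ * z) q
        (fun ω => (D.s i' j' ω, (D.c i₁ j ω, D.T ω)))) →
      ∃ g : D.Λ × ℕ → Fin (n - 1) → ℝ[X], (∀ x l, (g x l).degree < nn) ∧
        Pb q (fun ω => ¬ ∀ l : Fin (n - 1),
          |eval (fun r : Fin (n - 1) => up z (zt D i j ω (r + 1)))
              (pderiv l (kp0 D n z i j i' j' ω)) -
            (g (D.wn J (w₀ + j * z) ω) l).eval
              ((thr D J (w₀ + j * z) ω : ℝ) / 2 ^ (J - (w₀ + j * z)))| ≤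
            1 / 2 ^ (S * z)) ≤ e

theorem Ful_mono {D : NDat2} {Y : Type} {n i j r : ℕ} {e e' : ℝ} {q : D.Ω → ℝ} {y : D.Ω → Y}
    (h : UniD.Ful D n i j r e q y) (he : e ≤ e') : UniD.Ful D n i j r e' q y := by
  unfold UniD.Ful at h ⊢
  linarith

theorem gradA_of (hR : UniRadStmt) : GradAStmt := by
  classical
  intro n K lam gam C₁ hn hC₁ hlam hgam hne
  refine ⟨(n * (1 + K + n * K) + (K + n * K)) * K + 1, ?_⟩
  intro S e he
  -- constants
  obtain ⟨Λ, hΛ⟩ := exists_nat_ge (∑ l ∈ range (n + 1), lam l)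
  obtain ⟨q₀, hq₀⟩ := exists_nat_ge (1 + ∑ l ∈ Ico 1 n, 1 / |lam l - lam n|)
  obtain ⟨N₁, hN₁⟩ := exists_nat_ge C₁
  obtain ⟨C, hC, hdet⟩ := grad_det n K
  obtain ⟨z₁, hz₁⟩ := exists_nat_ge C
  set s := sq n Λ q₀ N₁ S with hs
  set dd := dq n Λ q₀ N₁ S with hdd
  have hl2 : 0 < Real.log 2 := Real.log_pos (by norm_num)
  have hn0 : (0 : ℝ) < n := by exact_mod_cast hn
  obtain ⟨κ₁, y₁, hκ₁, HU⟩ := UniP.uniOwn_ful n K 2 (Real.log 2) (e / (2 * n)) hn
    (by norm_num) hl2 (by positivity)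
  obtain ⟨κ₂, y₂, hκ₂, HR⟩ := hR n K lam gam C₁ 2 (Real.log 2) (e / (2 * n)) hn hC₁
    (by norm_num) hl2 (by positivity)
  have hlamΛ : ∀ l ≤ n, lam l ≤ Λ := fun l hl =>
    (Finset.single_le_sum (f := lam) (fun i _ => by linarith [hlam i])
      (Finset.mem_range.2 (by omega))).trans hΛ
  have hq1 : 1 ≤ q₀ := by
    have h1 : (1 : ℝ) ≤ q₀ := by
      have : (0 : ℝ) ≤ ∑ l ∈ Ico 1 n, 1 / |lam l - lam n| :=
        Finset.sum_nonneg fun _ _ => by positivity
      linarith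
    exact_mod_cast h1
  have hqd : ∀ l, 1 ≤ l → l < n → 1 ≤ q₀ * |lam l - lam n| := by
    intro l h1 h2
    have h3 : 0 < |lam l - lam n| := abs_pos.2 (sub_ne_zero.2 (hne l h1 h2))
    have h4 : 1 / |lam l - lam n| ≤ q₀ := by
      have := Finset.single_le_sum (f := fun l => 1 / |lam l - lam n|) (s := Ico 1 n)
        (fun i _ => by positivity) (Finset.mem_Ico.2 ⟨h1, h2⟩)
      linarith
    rwa [div_le_iff₀ h3] at h4
  refine ⟨dd n + 2 * N₁ + 1, min κ₁ κ₂, max (max y₁ y₂) (max z₁ 1), lt_min hκ₁ hκ₂, ?_⟩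
  intro J a₀ w₀ z M i j i' j' D q hz hdi hiM hj hi' hj' hgn hO hV
  have hzy₁ : y₁ ≤ z := ((le_max_left _ _).trans (le_max_left _ _)).trans hz
  have hzy₂ : y₂ ≤ z := ((le_max_right _ _).trans (le_max_left _ _)).trans hz
  have hzz₁ : z₁ ≤ z := ((le_max_left _ _).trans (le_max_right _ _)).trans hz
  have hz1 : 1 ≤ z := ((le_max_right _ _).trans (le_max_right _ _)).trans hz
  have hz0 : (0 : ℝ) ≤ z := Nat.cast_nonneg z
  have hC2 : C ≤ 2 ^ z := by
    have h1 : (z₁ : ℝ) ≤ z := by exact_mod_cast hzz₁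
    have h2 : (z : ℝ) ≤ 2 ^ z := by exact_mod_cast Nat.lt_two_pow_self.le
    linarith
  have hexp : Real.exp (Real.log 2 * z) = 2 ^ z := by
    rw [mul_comm, Real.exp_nat_mul, Real.exp_log (by norm_num)]
  have hτ1 : (1 : ℝ) ≤ 2 ^ z := one_le_pow₀ (by norm_num)
  -- the radii
  set il : ℕ → ℕ := fun l => if lam l < lam n then i + dd l else i - dd l with hil
  have hddn : ∀ l, l < n → dd l ≤ dd n := fun l hl => dq_mono n Λ q₀ N₁ S hl.le
  have hdd2 : ∀ l, 2 * N₁ ≤ dd l := by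
    intro l
    rw [hdd]
    unfold dq
    calc 2 * N₁ ≤ 1 * (sq n Λ q₀ N₁ S l + 3 + 4 * N₁) := by omega
      _ ≤ _ := Nat.mul_le_mul_right _ hq1
  have hilM : ∀ l, l < n → il l < M := by
    intro l hl
    have := hddn l hl
    rw [hil]
    simp only
    split_ifs <;> omega
  have hg2 : ∀ l, l < n → ∀ r, 1 ≤ r → r ≤ n →
      D.g (il l) j r ≤ D.g (i + (dd n + 2 * N₁ + 1)) j r := by
    intro l hl r h1 h2
    have := hddn l hl
    refine g_mono hO hN₁ ?_ hiM.le hj h1 h2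
    rw [hil]
    simp only
    split_ifs <;> omega
  -- the events
  set Eo : Fin (n - 1) → D.Ω → Prop := fun l ω => ∀ b : ℕ → ℝ, b 0 = D.X ω 0 →
    (∀ r, 1 ≤ r → r < n → |nat (D.g (il (l + 1)) j) (D.Φ (il (l + 1)) j ω) b r| ≤ 2) →
    |eval b (D.Ψ i' j' ω n) - eval b (D.Φ (il (l + 1)) j ω n)| ≤
      Real.exp (Real.log 2 * z) / 2 ^ D.g (il (l + 1)) j n with hEo
  set Er : Fin (n - 1) → D.Ω → Prop := fun l ω => ∀ m, 1 ≤ m → m ≤ n → ∀ b : ℕ → ℝ,
    b 0 = D.X ω 0 →
    (∀ r, 1 ≤ r → r < m → |nat (D.g (max i (il (l + 1))) j)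
      (D.Φ (max i (il (l + 1))) j ω) b r| ≤ 2) →
    |eval b (D.Φ (max i (il (l + 1))) j ω m) - eval b (D.Φ (min i (il (l + 1))) j ω m)| ≤
      Real.exp (Real.log 2 * z) / 2 ^ D.g (min i (il (l + 1))) j m with hEr
  have hPo : ∀ l, Pb q (fun ω => ¬ Eo l ω) ≤ e / (2 * n) := by
    intro l
    have hl : (l : ℕ) + 1 < n := by have := l.2; omega
    have h1 := hddn _ hl
    refine HU J a₀ w₀ z M (il (l + 1)) j i' j' z lam gam _ C₁ D q hzy₁ (hilM _ hl).le hj hi' hj'
      le_rfl ((hg2 _ hl n hn le_rfl).trans hgn) hO (Ful_mono (hV _ ?_ ?_) ?_)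
    · rw [hil]
      simp only
      split_ifs <;> omega
    · rw [hil]
      simp only
      split_ifs <;> omega
    · exact mul_le_mul_of_nonneg_right (min_le_left _ _) hz0
  have hPr : ∀ l, Pb q (fun ω => ¬ Er l ω) ≤ e / (2 * n) := by
    intro l
    have hl : (l : ℕ) + 1 < n := by have := l.2; omega
    have h1 := hddn _ hl
    have h2 := hdd2 (l + 1)
    refine HR J a₀ w₀ z M (min i (il (l + 1))) (max i (il (l + 1))) j D q hzy₂
      (min_le_max) (max_lt (by omega) (hilM _ hl)) hj ?_ (hO.mono_κ (min_le_right _ _))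
    intro r hr1 hr2
    refine g_mono hO hN₁ ?_ (max_lt (by omega) (hilM _ hl)).le hj hr1 hr2
    rw [hil]
    simp only
    split_ifs
    · rw [min_eq_left (by omega), max_eq_right (by omega)]
      omega
    · rw [min_eq_right (by omega), max_eq_left (by omega)]
      omega
  -- the polynomials
  have hwJ : w₀ + j * z ≤ J := by
    have h1 := hO.thin
    have h2 := hO.top
    have h3 : j * z ≤ (M + 1) * z := Nat.mul_le_mul_right _ (by omega)
    omega
  have hDet0 : Det q (D.wn J (w₀ + j * z)) (D.c i j) := hO.c_wn i (by omega) j hj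
  refine ⟨Gf D n J (w₀ + j * z) z i j (fun l => if l < n then il l else i) q, ?_, ?_⟩
  · -- degrees
    intro x l
    unfold Gf
    split_ifs with h
    · refine lt_of_le_of_lt Polynomial.degree_le_natDegree ?_
      have h1 : (Gp D n J (w₀ + j * z) z i j (fun l => if l < n then il l else i)
          h.choose l).natDegree ≤ (n * (1 + K + n * K) + (K + n * K)) * K := by
        unfold Gp
        refine (Polynomial.natDegree_C_mul_le _ _).trans ?_
        refine (natDegree_aeval_le _ (pc_deg D hO.pa_deg _ _ _) _).trans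
          (Nat.mul_le_mul_right _ ?_)
        refine (totalDegree_sub _ _).trans (max_le ?_ ?_)
        · refine (cp_deg (hO.P_tri _ _ _) (fun l => hO.P_tri _ _ _)
            (fun i _ => hO.P_deg _ _ _ _) (fun l i _ => hO.P_deg _ _ _ _) n _).trans ?_
          omega
        · refine (dv_deg (hO.P_tri _ _ _) (fun i _ => hO.P_deg _ _ _ _) _
            (hO.P_tri _ _ _ n)).trans ?_
          have := hO.P_deg i j (D.c i j h.choose) n
          have h3 : (D.Φ i j h.choose n).totalDegree ≤ K := this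
          omega
      exact_mod_cast Nat.lt_succ_of_le h1
    · rw [Polynomial.degree_zero]
      exact WithBot.bot_lt_coe _
  · -- the error
    have hun : Pb q (fun ω => ∃ l : Fin (n - 1), ¬ Eo l ω ∨ ¬ Er l ω) ≤ e := by
      refine (Pb_exists_le hO.isLaw.nonneg _).trans ?_
      have h1 : ∀ l : Fin (n - 1), Pb q (fun ω => ¬ Eo l ω ∨ ¬ Er l ω) ≤ e / n := by
        intro l
        refine (Pb_or2 hO.isLaw.nonneg _ _).trans ?_
        have h2 := hPo l
        have h3 := hPr l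
        have h4 : e / n = e / (2 * n) + e / (2 * n) := by
          field_simp
          ring
        rw [h4]
        linarith
      refine (Finset.sum_le_sum fun l _ => h1 l).trans ?_
      rw [Finset.sum_const, Finset.card_univ, Fintype.card_fin, nsmul_eq_mul]
      have h2 : ((n - 1 : ℕ) : ℝ) ≤ n := by exact_mod_cast Nat.sub_le _ _
      calc ((n - 1 : ℕ) : ℝ) * (e / n) ≤ n * (e / n) :=
            mul_le_mul_of_nonneg_right h2 (by positivity)
        _ = e := by field_simp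
    refine (Pb_mono_ae hO.isLaw.nonneg fun ω hω hb => ?_).trans hun
    by_contra hcon
    push Not at hcon
    refine hb fun l => ?_
    have hl : (l : ℕ) + 1 < n := by have := l.2; omega
    set ie : ℕ → ℕ := fun l => if l < n then il l else i with hie
    have hie' : ∀ l, l < n → ie l = il l := fun l hl => by
      rw [hie]
      simp only [if_pos hl]
    rw [Gf_eq hDet0 (fun l => by
      have : (if l < n then il l else i) ≤ M := by
        split_ifs with h
        · exact (hilM l h).le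
        · omega
      exact hO.c_wn _ this j hj) hω l]
    -- the deterministic estimate
    have hnat : ∀ k ≤ M, ∀ r, 1 ≤ r → r < n →
        |nat (D.g k j) (D.Φ k j ω) (D.X ω) r| ≤ 1 := by
      intro k hk r h1 h2
      have h3 := hO.hgt k hk j hj ω hω r h2.le
      unfold NDat2.rh at h3
      unfold nat
      rw [abs_mul, abs_of_pos (by positivity)]
      rw [le_div_iff₀ (by positivity)] at h3
      linarith
    have hmain := hdet s (fun l => Λ * dd l + 2 * N₁) z (2 ^ z) (D.Ψ i' j' ω n) (D.Φ i j ω)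
      (D.g i j) (fun l => D.Φ (ie l) j ω) (fun l => D.g (ie l) j) (D.X ω) hz1 hC2 hτ1 le_rfl
      (fun a b hab => sq_lt n Λ q₀ N₁ S a b hab) (hO.P_tri _ _ _) (fun l => hO.P_tri _ _ _)
      (fun i _ => hO.P_deg _ _ _ _) (fun l i _ => hO.P_deg _ _ _ _) (hO.G_tri _ _ _ n)
      (hO.G_deg _ _ _ _) (hnat i (by omega)) (fun l h1 h2 => by
        simp only [hie' l h2]
        exact hnat _ (hilM l h2).le) ?_ ?_ ?_ (l + 1) (Nat.succ_pos _) hl
    · -- the conclusion
      have hvF : (D.Ψ i' j' ω n - D.Φ i j ω n).vars ⊆ range n :=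
        vars_sub_le (hO.G_tri _ _ _ n) (hO.P_tri _ _ _ n)
      rw [grad_kp0 D n z i j i' j' ω (hO.P_tri _ _ _) hvF l]
      have e1 : (Gp D n J (w₀ + j * z) z i j ie ω l).eval
          ((thr D J (w₀ + j * z) ω : ℝ) / 2 ^ (J - (w₀ + j * z))) =
          4 * 2 ^ z * ((2 : ℝ) ^ D.g i j n / 2 ^ D.g i j (l + 1)) *
          eval (D.X ω) (cp n (D.Φ i j ω) (fun l => D.Φ (ie l) j ω) n (l + 1) -
            dv (D.Φ i j ω) (l + 1) (D.Φ i j ω n)) := by
        unfold Gp
        rw [Polynomial.eval_mul, Polynomial.eval_C, eval_aeval]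
        congr 1
        refine evl_congr fun k hk => ?_
        have hv : (cp n (D.Φ i j ω) (fun l => D.Φ (ie l) j ω) n (l + 1) -
            dv (D.Φ i j ω) (l + 1) (D.Φ i j ω n)).vars ⊆ range n :=
          vars_sub_le (cp_vars (hO.P_tri _ _ _) (fun l => hO.P_tri _ _ _) _ _)
            (dv_vars (hO.P_tri _ _ _) _ (hO.P_tri _ _ _ n))
        exact eval_pc D hwJ (hO.X_zero ω) (hO.str ω hω) (mem_range.1 (hv hk)).le
      rw [e1, ← mul_sub, ← map_sub, abs_mul, abs_of_pos (by positivity)]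
      have e2 : dv (D.Φ i j ω) (l + 1) (D.Ψ i' j' ω n - D.Φ i j ω n) -
          (cp n (D.Φ i j ω) (fun l => D.Φ (ie l) j ω) n (l + 1) -
            dv (D.Φ i j ω) (l + 1) (D.Φ i j ω n)) =
          dv (D.Φ i j ω) (l + 1) (D.Ψ i' j' ω n) -
            cp n (D.Φ i j ω) (fun l => D.Φ (ie l) j ω) n (l + 1) := by
        rw [map_sub]
        ring
      rw [e2]
      have e3 : 4 * 2 ^ z * ((2 : ℝ) ^ D.g i j n / 2 ^ D.g i j (l + 1)) *
          |eval (D.X ω) (dv (D.Φ i j ω) (l + 1) (D.Ψ i' j' ω n) -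
            cp n (D.Φ i j ω) (fun l => D.Φ (ie l) j ω) n (l + 1))| ≤
          4 * 2 ^ z * (1 / 2 ^ (s (l + 1) * z)) := by
        rw [mul_assoc]
        refine mul_le_mul_of_nonneg_left ?_ (by positivity)
        rw [mul_comm]
        exact hmain
      refine e3.trans ?_
      have hsS : S + 3 ≤ s (l + 1) := sq_ge n Λ q₀ N₁ S (l + 1)
      rw [mul_one_div, div_le_div_iff₀ (by positivity) (by positivity), one_mul]
      have e4 : (4 : ℝ) = 2 ^ 2 := by norm_num
      rw [e4, ← pow_add, ← pow_add]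
      refine pow_le_pow_right₀ (by norm_num) ?_
      have h5 := Nat.mul_le_mul_right z hsS
      have h6 : (S + 3) * z = S * z + 3 * z := by ring
      omega
    · -- the own leaf
      intro m h1 h2
      obtain ⟨m', rfl⟩ : ∃ m', m = m' + 1 := ⟨m - 1, by omega⟩
      have h3 := (hcon ⟨m', by omega⟩).1
      simp only [hie' _ h2]
      have h4 : Eo ⟨m', by omega⟩ ω := h3
      rw [hEo] at h4
      simp only at h4
      rw [hexp] at h4
      exact h4
    · -- the levels
      intro m h1 h2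
      simp only [hie' _ h2]
      have hd1 := hddn m h2
      have hqm := hqd m h1 h2
      have hddr : (dd m : ℝ) = q₀ * (s m + 3 + 4 * N₁) := by
        rw [hdd, hs]
        unfold dq
        push_cast
        ring
      have hsm : (0 : ℝ) ≤ s m + 3 + 4 * N₁ := by positivity
      have hkey : (s m + 3 + 4 * N₁ : ℝ) ≤ |lam m - lam n| * dd m := by
        rw [hddr]
        nlinarith
      rcases lt_or_gt_of_ne (hne m h1 h2) with hlt | hgt
      · have hi : il m = i + dd m := by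
          rw [hil]
          simp only [if_pos hlt]
        rw [hi]
        have a1 := g_diff hO (i₁ := i) (d := dd m) (by omega) hj h1 h2.le
        have a2 := g_diff hO (i₁ := i) (d := dd m) (by omega) hj hn le_rfl
        rw [abs_le] at a1 a2
        rw [abs_of_neg (by linarith)] at hkey
        have h6 : (s m + 3 + 4 * N₁ : ℝ) * z ≤ (lam n - lam m) * dd m * z := by
          refine mul_le_mul_of_nonneg_right ?_ hz0
          linarith
        have h7 : C₁ * z ≤ N₁ * z := mul_le_mul_of_nonneg_right hN₁ hz0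
        have h8 : (D.g (i + dd m) j m : ℝ) + D.g i j n + (s m + 3) * z ≤
            D.g (i + dd m) j n + D.g i j m := by
          nlinarith [a1.1, a1.2, a2.1, a2.2]
        exact_mod_cast h8
      · have hi : il m = i - dd m := by
          rw [hil]
          simp only [if_neg (not_lt.2 hgt.le)]
        rw [hi]
        obtain ⟨i₀, hi₀⟩ : ∃ i₀, i = i₀ + dd m := ⟨i - dd m, by omega⟩
        have hi₁ : i - dd m = i₀ := by omega
        rw [hi₁]
        have a1 := g_diff hO (i₁ := i₀) (d := dd m) (by omega) hj h1 h2.le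
        have a2 := g_diff hO (i₁ := i₀) (d := dd m) (by omega) hj hn le_rfl
        rw [← hi₀] at a1 a2
        rw [abs_le] at a1 a2
        rw [abs_of_pos (by linarith)] at hkey
        have h6 : (s m + 3 + 4 * N₁ : ℝ) * z ≤ (lam m - lam n) * dd m * z := by
          refine mul_le_mul_of_nonneg_right ?_ hz0
          linarith
        have h7 : C₁ * z ≤ N₁ * z := mul_le_mul_of_nonneg_right hN₁ hz0
        have h8 : (D.g i₀ j m : ℝ) + D.g i j n + (s m + 3) * z ≤
            D.g i₀ j n + D.g i j m := by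
          nlinarith [a1.1, a1.2, a2.1, a2.2]
        exact_mod_cast h8
    · -- the radii
      intro m h1 h2
      obtain ⟨m', rfl⟩ : ∃ m', m = m' + 1 := ⟨m - 1, by omega⟩
      have h3 : Er ⟨m', by omega⟩ ω := (hcon ⟨m', by omega⟩).2
      rw [hEr] at h3
      simp only at h3
      rw [hexp] at h3
      simp only [hie' _ h2]
      have hd1 := hddn _ h2
      have hd2 := hdd2 (m' + 1)
      have h7 : C₁ * z ≤ N₁ * z := mul_le_mul_of_nonneg_right hN₁ hz0
      rcases lt_or_gt_of_ne (hne _ h1 h2) with hlt | hgt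
      · have hi : il (m' + 1) = i + dd (m' + 1) := by
          rw [hil]
          simp only [if_pos hlt]
        left
        rw [hi] at h3 ⊢
        rw [max_eq_right (by omega), min_eq_left (by omega)] at h3
        refine ⟨fun r hr1 hr2 => h3 r hr1 hr2.le, ?_⟩
        have a1 := g_diff hO (i₁ := i) (d := dd (m' + 1)) (by omega) hj h1 h2.le
        rw [abs_le] at a1
        have h8 : lam (m' + 1) * dd (m' + 1) * z ≤ Λ * dd (m' + 1) * z :=
          mul_le_mul_of_nonneg_right (mul_le_mul_of_nonneg_right (hlamΛ _ h2.le)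
            (Nat.cast_nonneg _)) hz0
        have h9 : (D.g (i + dd (m' + 1)) j (m' + 1) : ℝ) ≤ D.g i j (m' + 1) +
            (Λ * dd (m' + 1) + 2 * N₁) * z := by
          nlinarith [a1.1, a1.2]
        exact_mod_cast h9
      · have hi : il (m' + 1) = i - dd (m' + 1) := by
          rw [hil]
          simp only [if_neg (not_lt.2 hgt.le)]
        right
        rw [hi] at h3 ⊢
        obtain ⟨i₀, hi₀⟩ : ∃ i₀, i = i₀ + dd (m' + 1) := ⟨i - dd (m' + 1), by omega⟩
        have hi₁ : i - dd (m' + 1) = i₀ := by omega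
        rw [max_eq_left (by omega), min_eq_right (by omega)] at h3
        refine ⟨fun r hr1 hr2 => h3 r hr1 hr2.le, ?_⟩
        intro r hr1 hr2
        rw [hi₁]
        have a1 := g_diff hO (i₁ := i₀) (d := dd (m' + 1)) (by omega) hj hr1 hr2.le
        rw [← hi₀, abs_le] at a1
        have h8 : lam r * dd (m' + 1) * z ≤ Λ * dd (m' + 1) * z :=
          mul_le_mul_of_nonneg_right (mul_le_mul_of_nonneg_right (hlamΛ _ hr2.le)
            (Nat.cast_nonneg _)) hz0
        have h9 : (D.g i j r : ℝ) ≤ D.g i₀ j r + (Λ * dd (m' + 1) + 2 * N₁) * z := by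
          nlinarith [a1.1, a1.2]
        exact_mod_cast h9

end Pool.MicA
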