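import Pool.Agent.H46.MicA.Frame

/-!
# The closed gradients

`cp`: the gradient of the own leaf in the frame of one system from the gradients of the labels at
other radii in their own frames.
-/

set_option autoImplicit false

namespace Pool.MicA

open Finset MvPolynomial
open Pool.STAT Pool.MIC.Frm Pool.STAT.AdxRow

/-- The closed polynomials. -/
noncomputable def cp (n : ℕ) (Φ : ℕ → PN) (Φl : ℕ → ℕ → PN) : ℕ → ℕ → PN
  | 0, _ => 0
  | k + 1, l => dv (Φl l) l (Φl l n) - ∑ m ∈ Ioo l n, gg (Φl l) Φ l m * cp n Φ Φl k m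

section cp

variable {n K : ℕ} {Φ : ℕ → PN} {Φl : ℕ → ℕ → PN}

theorem gg_vars {Ψ Φ : ℕ → PN} (hΨ : TriN Ψ) (hΦ : TriN Φ) {l m n : ℕ} (h : m < n) :
    (gg Ψ Φ l m).vars ⊆ range n := by
  unfold gg
  refine dv_vars hΨ l (vars_sub_le (vars_X_le h) ((hΦ m).trans (Finset.range_mono h.le)))

theorem gg_deg {Ψ Φ : ℕ → PN} (hΨ : TriN Ψ) (hΦ : TriN Φ)
    (dΨ : ∀ i < n, (Ψ i).totalDegree ≤ K) (dΦ : ∀ i < n, (Φ i).totalDegree ≤ K) {l m : ℕ}
    (h : m < n) : (gg Ψ Φ l m).totalDegree ≤ 1 + K + n * K := by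
  unfold gg
  have h1 : (X m - Φ m : PN).totalDegree ≤ 1 + K := by
    refine (totalDegree_sub _ _).trans (max_le ?_ ?_)
    · rw [totalDegree_X]
      omega
    · exact (dΦ m h).trans (by omega)
  refine (dv_deg hΨ dΨ l (vars_sub_le (vars_X_le h)
    ((hΦ m).trans (Finset.range_mono h.le)))).trans ?_
  omega

theorem cp_vars (hΦ : TriN Φ) (hl : ∀ l, TriN (Φl l)) (k l : ℕ) :
    (cp n Φ Φl k l).vars ⊆ range n := by
  induction k generalizing l with
  | zero =>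
    rw [cp, vars_0]
    exact Finset.empty_subset _
  | succ k ih =>
    rw [cp]
    refine vars_sub_le (dv_vars (hl l) l (hl l n)) (vars_sum_le _ _ fun m hm => ?_)
    exact vars_mul_le (gg_vars (hl l) hΦ (Finset.mem_Ioo.1 hm).2) (ih m)

theorem cp_deg (hΦ : TriN Φ) (hl : ∀ l, TriN (Φl l)) (dΦ : ∀ i ≤ n, (Φ i).totalDegree ≤ K)
    (dl : ∀ l, ∀ i ≤ n, (Φl l i).totalDegree ≤ K) (k l : ℕ) :
    (cp n Φ Φl k l).totalDegree ≤ k * (1 + K + n * K) := by
  induction k generalizing l with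
  | zero =>
    rw [cp, totalDegree_zero]
    exact Nat.zero_le _
  | succ k ih =>
    rw [cp, Nat.succ_mul]
    refine (totalDegree_sub _ _).trans (max_le ?_ ?_)
    · have h1 := dv_deg (hl l) (fun i hi => dl l i (Nat.le_of_lt hi)) l (hl l n)
      have h2 := dl l n le_rfl
      omega
    · refine totalDegree_finsetSum_le fun m hm => ?_
      have hm' := (Finset.mem_Ioo.1 hm).2
      have h1 := gg_deg (hl l) hΦ (fun i hi => dl l i (Nat.le_of_lt hi))
        (fun i hi => dΦ i (Nat.le_of_lt hi)) (l := l) hm'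
      refine (totalDegree_mul _ _).trans ?_
      have h2 := ih m
      omega

/-- The error of the closed polynomials. -/
theorem cp_err {F : PN} {g : ℕ → ℕ} {x : ℕ → ℝ} {A B E : ℕ → ℝ} (hΦ : TriN Φ)
    (hl : ∀ l, TriN (Φl l)) (hF : F.vars ⊆ range n) (hB : ∀ l, 0 ≤ B l)
    (h1 : ∀ l, 1 ≤ l → l < n →
      |eval x (dv (Φl l) l (F - Φl l n))| * ((2 : ℝ) ^ g n / 2 ^ g l) ≤ A l)
    (h2 : ∀ l, 1 ≤ l → ∀ m, l < m → m < n →
      |eval x (gg (Φl l) Φ l m)| * ((2 : ℝ) ^ g m / 2 ^ g l) ≤ B l)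
    (hE : ∀ l, 1 ≤ l → l < n → A l + ∑ m ∈ Ioo l n, B l * E m ≤ E l) (k : ℕ) :
    ∀ l, 1 ≤ l → l < n → n ≤ l + k →
      |eval x (dv Φ l F - cp n Φ Φl k l)| * ((2 : ℝ) ^ g n / 2 ^ g l) ≤ E l := by
  induction k with
  | zero =>
    intro l _ h h'
    omega
  | succ k ih =>
    intro l hl1 hln hk
    have e1 : dv Φ l F - cp n Φ Φl (k + 1) l = dv (Φl l) l (F - Φl l n) -
        ∑ m ∈ Ioo l n, gg (Φl l) Φ l m * (dv Φ m F - cp n Φ Φl k m) := by
      have h3 := dv_chg (hl l) hΦ (l := l) hF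
      have h4 : dv Φ l F = dv (Φl l) l F - ∑ m ∈ Ioo l n, gg (Φl l) Φ l m * dv Φ m F := by
        rw [h3]
        ring
      rw [h4, cp, map_sub]
      simp only [mul_sub, Finset.sum_sub_distrib]
      ring
    rw [e1, map_sub, map_sum]
    refine le_trans (mul_le_mul_of_nonneg_right (abs_sub _ _) (by positivity)) ?_
    rw [add_mul]
    refine le_trans (add_le_add (h1 l hl1 hln) ?_) (hE l hl1 hln)
    refine le_trans (mul_le_mul_of_nonneg_right (Finset.abs_sum_le_sum_abs _ _)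
      (by positivity)) ?_
    rw [Finset.sum_mul]
    refine Finset.sum_le_sum fun m hm => ?_
    obtain ⟨hm1, hm2⟩ := Finset.mem_Ioo.1 hm
    rw [map_mul, abs_mul]
    have e2 : |eval x (gg (Φl l) Φ l m)| * |eval x (dv Φ m F - cp n Φ Φl k m)| *
        ((2 : ℝ) ^ g n / 2 ^ g l) = (|eval x (gg (Φl l) Φ l m)| * ((2 : ℝ) ^ g m / 2 ^ g l)) *
          (|eval x (dv Φ m F - cp n Φ Φl k m)| * ((2 : ℝ) ^ g n / 2 ^ g m)) := by
      field_simp
    rw [e2]
    exact mul_le_mul (h2 l hl1 m hm1 hm2) (ih m (by omega) hm2 (by omega)) (by positivity) (hB l)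

end cp

/-- One constant for all the coordinates. -/
theorem dv_le' (n K : ℕ) : ∃ C : ℝ, 1 ≤ C ∧ ∀ (g : ℕ → ℕ) (Φ : ℕ → PN) (F : PN) (τ : ℝ)
    (x : ℕ → ℝ) (l m : ℕ), m ≤ n → TriN Φ → (∀ i < n, (Φ i).totalDegree ≤ K) →
    F.vars ⊆ range m → F.totalDegree ≤ K → 1 ≤ l → (∀ r, 1 ≤ r → r < m → |nat g Φ x r| ≤ 1) →
    (∀ b : ℕ → ℝ, b 0 = x 0 → (∀ r, 1 ≤ r → r < m → |nat g Φ b r| ≤ 2) → |eval b F| ≤ τ) →
    |eval x (dv Φ l F)| ≤ C * 2 ^ g l * τ := by
  choose C hC h using fun m => dv_le m K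
  refine ⟨∑ m ∈ range (n + 1), C m, ?_, ?_⟩
  · refine (hC 0).trans (Finset.single_le_sum (f := C) (fun i _ => ?_) ?_)
    · linarith [hC i]
    · exact Finset.mem_range.2 (Nat.succ_pos _)
  · intro g Φ F τ x l m hm hΦ dΦ vF dF hl hx hb
    refine (h m g Φ F τ x l hΦ (fun i hi => dΦ i (by omega)) vF dF hl hx hb).trans ?_
    have hτ : 0 ≤ τ :=
      (abs_nonneg _).trans (hb x rfl fun r h1 h2 => (hx r h1 h2).trans one_le_two)
    have h1 : C m ≤ ∑ m ∈ range (n + 1), C m :=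
      Finset.single_le_sum (f := C) (fun i _ => by linarith [hC i])
        (Finset.mem_range.2 (by omega))
    gcongr

/-- **The coefficients of the change of the frame are bounded.** -/
theorem gg_le (n K : ℕ) : ∃ C : ℝ, 1 ≤ C ∧ ∀ (Ψ Φ : ℕ → PN) (g' g : ℕ → ℕ) (x : ℕ → ℝ) (l : ℕ)
    (τ ρ : ℝ), TriN Ψ → TriN Φ → (∀ i < n, (Ψ i).totalDegree ≤ K) →
    (∀ i < n, (Φ i).totalDegree ≤ K) → 1 ≤ l → 1 ≤ τ → 1 ≤ ρ →
    (∀ r, 1 ≤ r → r < n → |nat g' Ψ x r| ≤ 1) → (∀ r, 1 ≤ r → r < n → |nat g Φ x r| ≤ 1) →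
    (((∀ m, 1 ≤ m → m < n → ∀ b : ℕ → ℝ, b 0 = x 0 →
        (∀ r, 1 ≤ r → r < m → |nat g' Ψ b r| ≤ 2) →
        |eval b (Ψ m) - eval b (Φ m)| ≤ τ / 2 ^ g m) ∧ (2 : ℝ) ^ g' l ≤ ρ * 2 ^ g l) ∨
      ((∀ m, 1 ≤ m → m < n → ∀ b : ℕ → ℝ, b 0 = x 0 →
        (∀ r, 1 ≤ r → r < m → |nat g Φ b r| ≤ 2) →
        |eval b (Φ m) - eval b (Ψ m)| ≤ τ / 2 ^ g' m) ∧
        ∀ m, 1 ≤ m → m < n → (2 : ℝ) ^ g m ≤ ρ * 2 ^ g' m)) →
    ∀ m, l < m → m < n →
      |eval x (gg Ψ Φ l m)| * ((2 : ℝ) ^ g m / 2 ^ g l) ≤ (C * τ * ρ) ^ n := by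
  obtain ⟨C, hC, h⟩ := dv_le' n K
  refine ⟨(n + 1) * C, by nlinarith [Nat.cast_nonneg (α := ℝ) n], ?_⟩
  intro Ψ Φ g' g x l τ ρ hΨ hΦ dΨ dΦ hl hτ hρ hx' hx hcase
  set a : ℝ := (n + 1) * C * τ * ρ with ha
  have hn0 : (0 : ℝ) ≤ n := Nat.cast_nonneg n
  have hc0 : 1 ≤ C * τ * ρ := by
    have h1 : 1 ≤ C * τ := one_le_mul_of_one_le_of_one_le hC hτ
    exact one_le_mul_of_one_le_of_one_le h1 hρ
  have ha0 : a = (n + 1) * (C * τ * ρ) := by rw [ha]; ring
  have ha1 : 1 ≤ a := by rw [ha0]; nlinarith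
  have hca : C * τ * ρ ≤ a := by rw [ha0]; nlinarith
  have vG : ∀ m, (Ψ m - Φ m).vars ⊆ range m := fun m => vars_sub_le (hΨ m) (hΦ m)
  have dG : ∀ m < n, (Ψ m - Φ m).totalDegree ≤ K := fun m hm =>
    (totalDegree_sub _ _).trans (max_le (dΨ m hm) (dΦ m hm))
  rcases hcase with ⟨hA, hB⟩ | ⟨hA, hB⟩
  · intro m hm hmn
    have h1 := h g' Ψ (Ψ m - Φ m) (τ / 2 ^ g m) x l m hmn.le hΨ dΨ (vG m) (dG m hmn) hl
      (fun r h1 h2 => hx' r h1 (by omega)) (fun b h0 hb => by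
        rw [map_sub]
        exact hA m (by omega) hmn b h0 hb)
    rw [← gg_eq hΨ hm] at h1
    calc _ ≤ (C * 2 ^ g' l * (τ / 2 ^ g m)) * ((2 : ℝ) ^ g m / 2 ^ g l) :=
          mul_le_mul_of_nonneg_right h1 (by positivity)
      _ = C * τ * (2 ^ g' l / 2 ^ g l) := by field_simp
      _ ≤ C * τ * ρ := by
          refine mul_le_mul_of_nonneg_left ?_ (by positivity)
          rw [div_le_iff₀ (by positivity)]
          exact hB
      _ ≤ a := hca
      _ ≤ a ^ n := le_self_pow₀ ha1 (by omega)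
  · have key : ∀ m, l < m → m < n →
        |eval x (gg Ψ Φ l m)| * ((2 : ℝ) ^ g m / 2 ^ g l) ≤ a ^ (m - l) := by
      intro m
      induction m using Nat.strong_induction_on with
      | _ m ih =>
        intro hm hmn
        have hd : ∀ r, 1 ≤ r → |eval x (dv Φ r (Ψ m - Φ m))| ≤ C * 2 ^ g r * (τ / 2 ^ g' m) :=
          fun r hr => h g Φ (Ψ m - Φ m) (τ / 2 ^ g' m) x r m hmn.le hΦ dΦ (vG m) (dG m hmn) hr
            (fun r h1 h2 => hx r h1 (by omega)) (fun b h0 hb => by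
              rw [map_sub, abs_sub_comm]
              exact hA m (by omega) hmn b h0 hb)
        rw [gg_eq hΨ hm, dv_chg hΨ hΦ (vG m), map_add, map_sum]
        have hg : (2 : ℝ) ^ g m / 2 ^ g' m ≤ ρ := by
          rw [div_le_iff₀ (by positivity)]
          exact hB m (by omega) hmn
        have h1 : |eval x (dv Φ l (Ψ m - Φ m))| * ((2 : ℝ) ^ g m / 2 ^ g l) ≤ C * τ * ρ := by
          calc _ ≤ (C * 2 ^ g l * (τ / 2 ^ g' m)) * ((2 : ℝ) ^ g m / 2 ^ g l) :=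
                mul_le_mul_of_nonneg_right (hd l hl) (by positivity)
            _ = C * τ * ((2 : ℝ) ^ g m / 2 ^ g' m) := by field_simp
            _ ≤ C * τ * ρ := mul_le_mul_of_nonneg_left hg (by positivity)
        have h2 : ∀ r ∈ Ioo l m, |eval x (gg Ψ Φ l r * dv Φ r (Ψ m - Φ m))| *
            ((2 : ℝ) ^ g m / 2 ^ g l) ≤ C * τ * ρ * a ^ (m - l - 1) := by
          intro r hr
          obtain ⟨hr1, hr2⟩ := Finset.mem_Ioo.1 hr
          rw [map_mul, abs_mul]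
          have i1 := ih r hr2 hr1 (by omega)
          have i2 : a ^ (r - l) ≤ a ^ (m - l - 1) := pow_le_pow_right₀ ha1 (by omega)
          calc _ ≤ |eval x (gg Ψ Φ l r)| * (C * 2 ^ g r * (τ / 2 ^ g' m)) *
                ((2 : ℝ) ^ g m / 2 ^ g l) :=
                mul_le_mul_of_nonneg_right (mul_le_mul_of_nonneg_left (hd r (by omega))
                  (abs_nonneg _)) (by positivity)
            _ = C * τ * ((2 : ℝ) ^ g m / 2 ^ g' m) *
                (|eval x (gg Ψ Φ l r)| * ((2 : ℝ) ^ g r / 2 ^ g l)) := by field_simp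
            _ ≤ C * τ * ρ * a ^ (m - l - 1) := by
                refine mul_le_mul (mul_le_mul_of_nonneg_left hg (by positivity))
                  (i1.trans i2) (by positivity) (by positivity)
        refine le_trans (mul_le_mul_of_nonneg_right (abs_add_le _ _) (by positivity)) ?_
        rw [add_mul]
        have h3 : |∑ r ∈ Ioo l m, eval x (gg Ψ Φ l r * dv Φ r (Ψ m - Φ m))| *
            ((2 : ℝ) ^ g m / 2 ^ g l) ≤ n * (C * τ * ρ * a ^ (m - l - 1)) := by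
          refine le_trans (mul_le_mul_of_nonneg_right (Finset.abs_sum_le_sum_abs _ _)
            (by positivity)) ?_
          rw [Finset.sum_mul]
          refine (Finset.sum_le_sum h2).trans ?_
          rw [Finset.sum_const, nsmul_eq_mul]
          refine mul_le_mul_of_nonneg_right ?_ (by positivity)
          rw [Nat.card_Ioo]
          exact_mod_cast (by omega : m - l - 1 ≤ n)
        refine (add_le_add h1 h3).trans ?_
        have h4 : (1 : ℝ) ≤ a ^ (m - l - 1) := one_le_pow₀ ha1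
        have h5 : a ^ (m - l) = a ^ (m - l - 1) * a := by
          rw [← pow_succ]
          congr 1
          omega
        rw [h5]
        have h6 : C * τ * ρ ≤ C * τ * ρ * a ^ (m - l - 1) :=
          le_mul_of_one_le_right (by positivity) h4
        calc _ ≤ C * τ * ρ * a ^ (m - l - 1) + n * (C * τ * ρ * a ^ (m - l - 1)) := by linarith
          _ = a ^ (m - l - 1) * a := by rw [ha0]; ring
    intro m hm hmn
    exact (key m hm hmn).trans (pow_le_pow_right₀ ha1 (by omega))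

end Pool.MicA
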