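import Pool.Agent.H20.MIC.Uni
import Pool.Agent.H19.STAT.Sys2L
import Pool.Agent.H46.MIC.Few

/-!
# From a cell to one context: the objects

The context is `c i j`, the chart is the line side `Φ i j` at the exact time, the own leaf is the
visible label `Ψ i' j'` of the target at a larger radius and a shorter window, all the base
coordinates are fat. Positions in the base are scaled: `(ζ + 2 · 2 ^ z) / (4 · 2 ^ z)`, `ζ`
natural coordinates over `Φ i j`.
-/

set_option autoImplicit false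

namespace Pool.MicA

open Finset MvPolynomial
open Pool.Agent.H49.Ent Pool.Agent.H32.Dense Pool.STK Pool.STAT Pool.MIC Pool.MIC.Frm Pool.LBL
open Pool.BFL (Pl Pb)

/-- The box at `(i', j')` contains the box at `(i, j)`. -/
def Fat (D : NDat2) (n i j i' j' : ℕ) : Prop := ∀ l, 1 ≤ l → l < n → D.g i' j' l ≤ D.g i j l

/-- The natural coordinates of the sample over the line side. -/
noncomputable def zt (D : NDat2) (i j : ℕ) (ω : D.Ω) : ℕ → ℝ := nat (D.g i j) (D.Φ i j ω) (D.X ω)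

/-- The scaled coordinate. -/
noncomputable def up (z : ℕ) (x : ℝ) : ℝ := (x + 2 * 2 ^ z) / (4 * 2 ^ z)

/-- The position in the base, `X` digits. -/
noncomputable def Yp (D : NDat2) (n z i j X : ℕ) (ω : D.Ω) (l : Fin (n - 1)) : ℕ :=
  ⌊(2 : ℝ) ^ X * up z (zt D i j ω (l + 1))⌋₊

/-- The exact height. -/
noncomputable def nuA (D : NDat2) (n i j X : ℕ) (ω : D.Ω) : ℤ := ⌊(2 : ℝ) ^ X * zt D i j ω n⌋

/-- The relative time in the window of length `2 ^ (-w)`. -/
def thr (D : NDat2) (J w : ℕ) (ω : D.Ω) : ℕ := D.T ω % 2 ^ (J - w)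

/-- The scaling of the polynomials. -/
noncomputable def scl (m z : ℕ) (F : Pl m) : Pl m :=
  bind₁ (fun l => C (4 * 2 ^ z) * X l - C (2 * 2 ^ z)) F

/-- The difference of the own leaf and of the line side, in scaled coordinates, at the exact
time. -/
noncomputable def kp0 (D : NDat2) (n z i j i' j' : ℕ) (ω : D.Ω) : Pl (n - 1) :=
  scl (n - 1) z (C ((2 : ℝ) ^ D.g i j n) *
    sl (n - 1) (bind₁ (nuc (D.g i j) (atT (D.X ω 0) (D.Φ i j ω)))
      (D.Ψ i' j' ω n - D.Φ i j ω n)))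

/-- Exponents. -/
noncomputable def em (m : ℕ) (α : Fin m →₀ ℕ) : ℕ →₀ ℕ :=
  Finsupp.embDomain (⟨fun l : Fin m => (l : ℕ) + 1, fun _ _ h => Fin.ext (Nat.succ.inj h)⟩ :
    Fin m ↪ ℕ) α

/-- The own leaf mod constants, `X` digits, degree `≤ K₀`: a function of the digits `ss`. -/
noncomputable def kpR (D : NDat2) (n K₀ z i j i' j' X : ℕ) (ω : D.Ω) : Pl (n - 1) :=
  scl (n - 1) z (Sp K₀ X fun α => D.ss n i j i' j' X ω n (em (n - 1) α))

/-- The own shape is not truncated. -/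
def Gdk (D : NDat2) (n K₀ z i j i' j' X bb : ℕ) (ω : D.Ω) : Prop :=
  ∀ α, α ≠ 0 → |coeff α (kpR D n K₀ z i j i' j' X ω)| ≤ 2 ^ bb

open Classical in
/-- The own shape: no constant term, `X` digits, truncated. -/
noncomputable def kpA (D : NDat2) (n K₀ z i j i' j' X bb : ℕ) (ω : D.Ω) : Pl (n - 1) :=
  if Gdk D n K₀ z i j i' j' X bb ω then
    kpR D n K₀ z i j i' j' X ω - C (coeff 0 (kpR D n K₀ z i j i' j' X ω)) else 0

/-- The height at the centre. -/
noncomputable def htA (D : NDat2) (n K₀ z i j i' j' X bb : ℕ) (ω : D.Ω) : ℤ :=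
  nuA D n i j X ω - ⌊(2 : ℝ) ^ X * eval (fun l => (Yp D n z i j X ω l : ℝ) / 2 ^ X)
    (kpA D n K₀ z i j i' j' X bb ω)⌋

/-- The point with the scaled coordinates `y` at the time `t` over the system `Φ`. -/
noncomputable def spt (m z : ℕ) (g : ℕ → ℕ) (Φ : ℕ → PN) (t : ℝ) (y : Fin m → ℝ) : ℕ → ℝ :=
  pt g (atT t Φ) (ex1 fun l => 4 * 2 ^ z * y l - 2 * 2 ^ z)

theorem tri_atT {Φ : ℕ → PN} (h : TriN Φ) (t : ℝ) : TriN (atT t Φ) := by
  intro i
  unfold atT
  by_cases hi : i = 0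
  · subst hi
    rw [Function.update_self, vars_C]
    exact Finset.empty_subset _
  · rw [Function.update_of_ne hi]
    exact h i

theorem eval_scl (m z : ℕ) (F : Pl m) (y : Fin m → ℝ) :
    eval y (scl m z F) = eval (fun l => 4 * 2 ^ z * y l - 2 * 2 ^ z) F := by
  unfold scl
  refine (eval₂Hom_bind₁ (RingHom.id ℝ) y _ _).trans ?_
  congr 2
  funext l
  change eval y _ = _
  rw [map_sub, map_mul, eval_C, eval_C, eval_X]

theorem eval_kp0 (D : NDat2) (n z i j i' j' : ℕ) (ω : D.Ω) (y : Fin (n - 1) → ℝ) :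
    eval y (kp0 D n z i j i' j' ω) = (2 : ℝ) ^ D.g i j n *
      (eval (spt (n - 1) z (D.g i j) (D.Φ i j ω) (D.X ω 0) y) (D.Ψ i' j' ω n) -
        eval (spt (n - 1) z (D.g i j) (D.Φ i j ω) (D.X ω 0) y) (D.Φ i j ω n)) := by
  unfold kp0
  rw [eval_scl, map_mul, eval_C, eval_sl, eval_fr', map_sub]
  rfl

end Pool.MicA
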