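import Pool.Agent.H46.MicA.Cp

/-!
# The closed gradients: the estimate for one sample
-/

set_option autoImplicit false

namespace Pool.MicA

open Finset MvPolynomial
open Pool.STAT Pool.MIC.Frm Pool.STAT.AdxRow

/-- **The gradient of the own leaf is the closed polynomial**, for one sample. -/
theorem grad_det (n K : ℕ) : ∃ C : ℝ, 1 ≤ C ∧ ∀ (s e : ℕ → ℕ) (z : ℕ) (τ : ℝ) (F : PN)
    (Φ : ℕ → PN) (g : ℕ → ℕ) (Φl : ℕ → ℕ → PN) (gl : ℕ → ℕ → ℕ) (x : ℕ → ℝ), 1 ≤ z →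
    C ≤ 2 ^ z → 1 ≤ τ → τ ≤ 2 ^ z → (∀ l m, l < m → s l + 2 + n * (e l + 2) ≤ s m) →
    TriN Φ → (∀ l, TriN (Φl l)) → (∀ i ≤ n, (Φ i).totalDegree ≤ K) →
    (∀ l, ∀ i ≤ n, (Φl l i).totalDegree ≤ K) → F.vars ⊆ range n → F.totalDegree ≤ K →
    (∀ r, 1 ≤ r → r < n → |nat g Φ x r| ≤ 1) →
    (∀ l, 1 ≤ l → l < n → ∀ r, 1 ≤ r → r < n → |nat (gl l) (Φl l) x r| ≤ 1) →
    (∀ l, 1 ≤ l → l < n → ∀ b : ℕ → ℝ, b 0 = x 0 →
      (∀ r, 1 ≤ r → r < n → |nat (gl l) (Φl l) b r| ≤ 2) →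
      |eval b F - eval b (Φl l n)| ≤ τ / 2 ^ gl l n) →
    (∀ l, 1 ≤ l → l < n → gl l l + g n + (s l + 3) * z ≤ gl l n + g l) →
    (∀ l, 1 ≤ l → l < n →
      ((∀ m, 1 ≤ m → m < n → ∀ b : ℕ → ℝ, b 0 = x 0 →
        (∀ r, 1 ≤ r → r < m → |nat (gl l) (Φl l) b r| ≤ 2) →
        |eval b (Φl l m) - eval b (Φ m)| ≤ τ / 2 ^ g m) ∧ gl l l ≤ g l + e l * z) ∨
      ((∀ m, 1 ≤ m → m < n → ∀ b : ℕ → ℝ, b 0 = x 0 →
        (∀ r, 1 ≤ r → r < m → |nat g Φ b r| ≤ 2) →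
        |eval b (Φ m) - eval b (Φl l m)| ≤ τ / 2 ^ gl l m) ∧
        ∀ m, 1 ≤ m → m < n → g m ≤ gl l m + e l * z)) →
    ∀ l, 1 ≤ l → l < n →
      |eval x (dv Φ l F - cp n Φ Φl n l)| * ((2 : ℝ) ^ g n / 2 ^ g l) ≤ 1 / 2 ^ (s l * z) := by
  obtain ⟨C₁, hC₁, h1⟩ := dv_le' n K
  obtain ⟨C₂, hC₂, h2⟩ := gg_le n K
  have hn0 : (0 : ℝ) ≤ n := Nat.cast_nonneg n
  refine ⟨C₁ + C₂ + n, by linarith, ?_⟩
  intro s e z τ F Φ g Φl gl x hz hC hτ hτ2 hs hΦ hl dΦ dl vF dF hx hxl hown hG hrad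
  have hz2 : (2 : ℝ) ≤ 2 ^ z := by
    calc (2 : ℝ) = 2 ^ 1 := (pow_one 2).symm
      _ ≤ 2 ^ z := pow_le_pow_right₀ (by norm_num) hz
  set A : ℕ → ℝ := fun l => 1 / 2 ^ ((s l + 1) * z) with hA
  set B : ℕ → ℝ := fun l => 2 ^ (n * (e l + 2) * z) with hB
  set E : ℕ → ℝ := fun l => 1 / 2 ^ (s l * z) with hE
  intro l hl1 hln
  refine cp_err (A := A) (B := B) (E := E) hΦ hl vF (fun l => by positivity) ?_ ?_ ?_ n l hl1 hln
    (by omega)
  · -- the own leaf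
    intro l hl1 hln
    have e1 := h1 (gl l) (Φl l) (F - Φl l n) (τ / 2 ^ gl l n) x l n le_rfl (hl l)
      (fun i hi => dl l i hi.le) (vars_sub_le vF (hl l n))
      ((totalDegree_sub _ _).trans (max_le dF (dl l n le_rfl))) hl1 (hxl l hl1 hln)
      (fun b h0 hb => by
        rw [map_sub]
        exact hown l hl1 hln b h0 hb)
    have e2 : (2 : ℝ) ^ gl l l * 2 ^ g n * 2 ^ ((s l + 3) * z) ≤ 2 ^ gl l n * 2 ^ g l := by
      rw [← pow_add, ← pow_add, ← pow_add]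
      exact pow_le_pow_right₀ (by norm_num) (hG l hl1 hln)
    calc |eval x (dv (Φl l) l (F - Φl l n))| * ((2 : ℝ) ^ g n / 2 ^ g l)
        ≤ (C₁ * 2 ^ gl l l * (τ / 2 ^ gl l n)) * ((2 : ℝ) ^ g n / 2 ^ g l) :=
          mul_le_mul_of_nonneg_right e1 (by positivity)
      _ = C₁ * τ * ((2 ^ gl l l * 2 ^ g n) / (2 ^ gl l n * 2 ^ g l)) := by field_simp
      _ ≤ 2 ^ z * 2 ^ z * (1 / 2 ^ ((s l + 3) * z)) := by
          have e3 : ((2 : ℝ) ^ gl l l * 2 ^ g n) / (2 ^ gl l n * 2 ^ g l) ≤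
              1 / 2 ^ ((s l + 3) * z) := by
            rw [div_le_div_iff₀ (by positivity) (by positivity), one_mul]
            exact e2
          refine mul_le_mul (mul_le_mul (by linarith) hτ2 (by linarith) (by positivity)) e3
            (by positivity) (by positivity)
      _ = 1 / 2 ^ ((s l + 1) * z) := by
          have e4 : (s l + 3) * z = (s l + 1) * z + z + z := by ring
          rw [e4, pow_add, pow_add]
          field_simp
  · -- the change of the frame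
    intro l hl1 m hlm hmn
    have hρ : (1 : ℝ) ≤ 2 ^ (e l * z) := one_le_pow₀ (by norm_num)
    have e1 := h2 (Φl l) Φ (gl l) g x l τ (2 ^ (e l * z)) (hl l) hΦ (fun i hi => dl l i hi.le)
      (fun i hi => dΦ i hi.le) hl1 hτ hρ (hxl l hl1 (by omega)) hx ?_ m hlm hmn
    · refine e1.trans ?_
      have e2 : C₂ * τ * 2 ^ (e l * z) ≤ 2 ^ ((e l + 2) * z) := by
        have e3 : (e l + 2) * z = z + z + e l * z := by ring
        rw [e3, pow_add, pow_add]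
        refine mul_le_mul_of_nonneg_right ?_ (by positivity)
        exact mul_le_mul (by linarith) hτ2 (by linarith) (by positivity)
      refine (pow_le_pow_left₀ (by positivity) e2 n).trans (le_of_eq ?_)
      rw [hB]
      simp only
      rw [← pow_mul]
      congr 1
      ring
    · rcases hrad l hl1 (by omega) with ⟨ha, hb⟩ | ⟨ha, hb⟩
      · refine Or.inl ⟨ha, ?_⟩
        rw [← pow_add]
        exact pow_le_pow_right₀ (by norm_num) (by omega)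
      · refine Or.inr ⟨ha, fun m h1 h2 => ?_⟩
        rw [← pow_add]
        have := hb m h1 h2
        exact pow_le_pow_right₀ (by norm_num) (by omega)
  · -- the sum
    intro l hl1 hln
    have e1 : ∀ m ∈ Ioo l n, B l * E m ≤ 1 / 2 ^ ((s l + 2) * z) := by
      intro m hm
      have hm1 := (Finset.mem_Ioo.1 hm).1
      have h3 := hs l m hm1
      rw [hB, hE]
      simp only
      rw [mul_one_div, div_le_div_iff₀ (by positivity) (by positivity), one_mul, ← pow_add]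
      refine pow_le_pow_right₀ (by norm_num) ?_
      have h4 := Nat.mul_le_mul_right z h3
      calc n * (e l + 2) * z + (s l + 2) * z = (s l + 2 + n * (e l + 2)) * z := by ring
        _ ≤ s m * z := h4
    have e2 : ∑ m ∈ Ioo l n, B l * E m ≤ 1 / 2 ^ ((s l + 1) * z) := by
      refine (Finset.sum_le_sum e1).trans ?_
      rw [Finset.sum_const, nsmul_eq_mul]
      have e3 : (#(Ioo l n) : ℝ) ≤ 2 ^ z := by
        have e4 : (#(Ioo l n) : ℝ) ≤ n := by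
          rw [Nat.card_Ioo]
          exact_mod_cast (by omega : n - l - 1 ≤ n)
        linarith
      refine (mul_le_mul_of_nonneg_right e3 (by positivity)).trans (le_of_eq ?_)
      have e5 : (s l + 2) * z = (s l + 1) * z + z := by ring
      rw [e5, pow_add]
      field_simp
    have e3 : A l = 1 / 2 ^ ((s l + 1) * z) := rfl
    rw [e3]
    have e4 : (1 : ℝ) / 2 ^ ((s l + 1) * z) + 1 / 2 ^ ((s l + 1) * z) ≤ 1 / 2 ^ (s l * z) := by
      have e5 : (s l + 1) * z = s l * z + z := by ring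
      rw [e5, pow_add, ← add_div, div_le_div_iff₀ (by positivity) (by positivity)]
      have : (0 : ℝ) < 2 ^ (s l * z) := by positivity
      nlinarith
    linarith

/-! ### The sequence of the radii -/

/-- Digits. -/
def sq (n Λ q₀ N₁ S : ℕ) : ℕ → ℕ
  | 0 => S + 3
  | l + 1 => sq n Λ q₀ N₁ S l + 2 +
      n * (Λ * (q₀ * (sq n Λ q₀ N₁ S l + 3 + 4 * N₁)) + 2 * N₁ + 2)

/-- Distances of the radii. -/
def dq (n Λ q₀ N₁ S l : ℕ) : ℕ := q₀ * (sq n Λ q₀ N₁ S l + 3 + 4 * N₁)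

theorem sq_mono (n Λ q₀ N₁ S : ℕ) : Monotone (sq n Λ q₀ N₁ S) :=
  monotone_nat_of_le_succ fun l => by
    rw [sq]
    omega

theorem dq_mono (n Λ q₀ N₁ S : ℕ) : Monotone (dq n Λ q₀ N₁ S) := fun a b h => by
  unfold dq
  have := sq_mono n Λ q₀ N₁ S h
  exact Nat.mul_le_mul_left _ (by omega)

theorem sq_lt (n Λ q₀ N₁ S l m : ℕ) (h : l < m) : sq n Λ q₀ N₁ S l + 2 +
    n * ((Λ * dq n Λ q₀ N₁ S l + 2 * N₁) + 2) ≤ sq n Λ q₀ N₁ S m := by
  refine le_trans (le_of_eq ?_) (sq_mono n Λ q₀ N₁ S h)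
  rw [Nat.succ_eq_add_one, sq]
  rfl

theorem sq_ge (n Λ q₀ N₁ S l : ℕ) : S + 3 ≤ sq n Λ q₀ N₁ S l :=
  (le_of_eq (by rw [sq])).trans (sq_mono n Λ q₀ N₁ S (Nat.zero_le l))

end Pool.MicA
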