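import Pool.Agent.H20.MIC.Frm
import Pool.Agent.H36.KBX.Coef

/-!
# Frames of triangular systems

`dv Φ m` is the derivation `∂/∂ζ_m` of the natural coordinates of the system `Φ` at a fixed time,
in absolute coordinates.
-/

set_option autoImplicit false

namespace Pool.MicA

open Finset MvPolynomial
open Pool.STAT Pool.MIC.Frm Pool.STAT.AdxRow

/-- The frame of the system `Φ` in the direction `m`. -/
noncomputable def fr (Φ : ℕ → PN) (m : ℕ) : ℕ → PN :=
  fixm fun ξ r => if r = m then 1 else if r < m then 0 else lieN ξ (Φ r)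

/-- The derivation of the frame. -/
noncomputable def dv (Φ : ℕ → PN) (m : ℕ) : Derivation ℝ PN PN := lieN (fr Φ m)

theorem fr_eq {Φ : ℕ → PN} (hΦ : TriN Φ) (m r : ℕ) :
    fr Φ m r = if r = m then 1 else if r < m then 0 else dv Φ m (Φ r) := by
  unfold dv fr
  exact fixm_eq (S := fun ξ r => if r = m then (1 : PN) else if r < m then 0 else lieN ξ (Φ r))
    (fun i f f' h => by
      split_ifs
      · rfl
      · rfl
      · exact lieN_congr fun k hk => h k (mem_range.1 (hΦ i hk))) r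

theorem dv_X (Φ : ℕ → PN) (m r : ℕ) : dv Φ m (X r) = fr Φ m r := by
  unfold dv lieN
  exact mkDerivation_X _ _ _

theorem dv_C (Φ : ℕ → PN) (m : ℕ) (a : ℝ) : dv Φ m (C a) = 0 := by
  exact derivation_C _ _

theorem fr_lt {Φ : ℕ → PN} (hΦ : TriN Φ) {m r : ℕ} (h : r < m) : fr Φ m r = 0 := by
  rw [fr_eq hΦ, if_neg (by omega), if_pos h]

theorem fr_self {Φ : ℕ → PN} (hΦ : TriN Φ) (m : ℕ) : fr Φ m m = 1 := by
  rw [fr_eq hΦ, if_pos rfl]

theorem fr_gt {Φ : ℕ → PN} (hΦ : TriN Φ) {m r : ℕ} (h : m < r) : fr Φ m r = dv Φ m (Φ r) := by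
  rw [fr_eq hΦ, if_neg (by omega), if_neg (by omega)]

theorem dv_zero {Φ : ℕ → PN} (hΦ : TriN Φ) {m l : ℕ} {F : PN} (hF : F.vars ⊆ range l)
    (h : l ≤ m) : dv Φ m F = 0 := by
  have h1 : dv Φ m F = (0 : Derivation ℝ PN PN) F := by
    refine derivation_eq_of_forall_mem_vars fun i hi => ?_
    rw [dv_X, fr_lt hΦ (by have := mem_range.1 (hF hi); omega)]
    rfl
  rw [h1]
  rfl

theorem fr_vars {Φ : ℕ → PN} (hΦ : TriN Φ) (m r : ℕ) : (fr Φ m r).vars ⊆ range r := by
  induction r using Nat.strong_induction_on with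
  | _ r ih =>
    rw [fr_eq hΦ]
    split_ifs
    · rw [← C_1]
      exact vars_C_le _
    · rw [vars_0]
      exact Finset.empty_subset _
    · exact vars_lieN (hΦ r) fun k hk => (ih k hk).trans (Finset.range_mono (by omega))

theorem dv_vars {Φ : ℕ → PN} (hΦ : TriN Φ) (m : ℕ) {l : ℕ} {F : PN} (hF : F.vars ⊆ range l) :
    (dv Φ m F).vars ⊆ range l :=
  vars_lieN hF fun k hk => (fr_vars hΦ m k).trans (Finset.range_mono (by omega))

theorem fr_deg {Φ : ℕ → PN} (hΦ : TriN Φ) {K n : ℕ} (hK : ∀ i < n, (Φ i).totalDegree ≤ K)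
    (m r : ℕ) (hr : r < n) : (fr Φ m r).totalDegree ≤ r * K := by
  induction r using Nat.strong_induction_on with
  | _ r ih =>
    rw [fr_eq hΦ]
    split_ifs
    · rw [totalDegree_one]
      exact Nat.zero_le _
    · rw [totalDegree_zero]
      exact Nat.zero_le _
    · obtain ⟨s, rfl⟩ : ∃ s, r = s + 1 := ⟨r - 1, by omega⟩
      refine (Dgb.deg_lieN (hΦ _) (B := s * K) fun k hk => ?_).trans ?_
      · exact (ih k hk (by omega)).trans (Nat.mul_le_mul_right _ (by omega))
      · have := hK _ hr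
        rw [Nat.succ_mul]
        omega

theorem dv_deg {Φ : ℕ → PN} (hΦ : TriN Φ) {K n : ℕ} (hK : ∀ i < n, (Φ i).totalDegree ≤ K)
    (m : ℕ) {F : PN} (hF : F.vars ⊆ range n) :
    (dv Φ m F).totalDegree ≤ F.totalDegree + n * K :=
  Dgb.deg_lieN hF fun k hk => (fr_deg hΦ hK m k hk).trans (Nat.mul_le_mul_right _ hk.le)

/-! ### The chain rule -/

theorem hda0 (ξ : ℕ → PN) (b : ℝ → ℕ → ℝ) (s₀ c : ℝ)
    (h : ∀ r, HasDerivAt (fun s => b s r) (c * eval (b s₀) (ξ r)) s₀) (F : PN) :
    HasDerivAt (fun s => eval (b s) F) (c * eval (b s₀) (lieN ξ F)) s₀ := by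
  induction F using MvPolynomial.induction_on with
  | C a =>
    have e : lieN ξ (C a) = 0 := derivation_C _ _
    simp only [eval_C, e, map_zero, mul_zero]
    exact hasDerivAt_const s₀ a
  | add p q hp hq =>
    simp only [map_add, mul_add]
    exact hp.add hq
  | mul_X p i hp =>
    have h1 := hp.mul (h i)
    have e : lieN ξ (X i) = ξ i := mkDerivation_X _ _ _
    have e2 : lieN ξ (p * X i) = p * ξ i + X i * lieN ξ p := by
      rw [Derivation.leibniz, e, smul_eq_mul, smul_eq_mul]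
    rw [e2]
    simp only [map_mul, eval_X, map_add]
    refine h1.congr_deriv ?_
    ring

theorem hda {ξ : ℕ → PN} {b : ℝ → ℕ → ℝ} {s₀ c : ℝ} {m : ℕ} {F : PN} (hF : F.vars ⊆ range m)
    (h : ∀ r < m, HasDerivAt (fun s => b s r) (c * eval (b s₀) (ξ r)) s₀) :
    HasDerivAt (fun s => eval (b s) F) (c * eval (b s₀) (lieN ξ F)) s₀ := by
  have h1 := hda0 (fun r => if r < m then ξ r else 0) (fun s r => if r < m then b s r else b s₀ r)
    s₀ c (fun r => ?_) F
  · have e1 : lieN (fun r => if r < m then ξ r else 0) F = lieN ξ F :=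
      lieN_congr fun k hk => by rw [if_pos (mem_range.1 (hF hk))]
    have e2 : (fun r => if r < m then b s₀ r else b s₀ r) = b s₀ := by
      funext r
      split_ifs <;> rfl
    have e3 : (fun s => eval (fun r => if r < m then b s r else b s₀ r) F) =
        fun s => eval (b s) F := by
      funext s
      exact evl_congr fun k hk => by rw [if_pos (mem_range.1 (hF hk))]
    simp only [e2] at h1
    rw [e1, e3] at h1
    exact h1
  · have e2 : (fun r => if r < m then b s₀ r else b s₀ r) = b s₀ := by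
      funext r
      split_ifs <;> rfl
    simp only [e2]
    by_cases hr : r < m
    · simp only [if_pos hr]
      exact h r hr
    · simp only [if_neg hr, map_zero, mul_zero]
      exact hasDerivAt_const _ _

/-- Moving the coordinate `l`. -/
def mv (u : ℕ → ℝ) (l : ℕ) (s : ℝ) (r : ℕ) : ℝ := if r = l then u r + s else u r

theorem mv_zero (u : ℕ → ℝ) (l : ℕ) : mv u l 0 = u := by
  funext r
  unfold mv
  split_ifs
  · rw [add_zero]
  · rfl

theorem hd_pt {Φ : ℕ → PN} (hΦ : TriN Φ) (g : ℕ → ℕ) (u : ℕ → ℝ) (l : ℕ) (s₀ : ℝ) (r : ℕ) :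
    HasDerivAt (fun s => pt g Φ (mv u l s) r)
      (1 / 2 ^ g l * eval (pt g Φ (mv u l s₀)) (fr Φ l r)) s₀ := by
  induction r using Nat.strong_induction_on with
  | _ r ih =>
    have e1 : (fun s => pt g Φ (mv u l s) r) =
        fun s => eval (pt g Φ (mv u l s)) (Φ r) + mv u l s r / 2 ^ g r := by
      funext s
      exact pt_eq hΦ _ _
    rw [e1]
    have h1 := hda (ξ := fr Φ l) (b := fun s => pt g Φ (mv u l s)) (c := 1 / 2 ^ g l) (s₀ := s₀)
      (hΦ r) ih
    have h2 : HasDerivAt (fun s => mv u l s r / (2 : ℝ) ^ g r)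
        (if r = l then 1 / 2 ^ g l else 0) s₀ := by
      by_cases hr : r = l
      · subst hr
        simp only [mv, if_true]
        exact ((hasDerivAt_id s₀).const_add (u r)).div_const _
      · simp only [mv, if_neg hr]
        exact hasDerivAt_const _ _
    refine (h1.add h2).congr_deriv ?_
    rcases lt_trichotomy r l with hr | hr | hr
    · rw [if_neg (by omega), fr_lt hΦ hr]
      have e2 : lieN (fr Φ l) (Φ r) = 0 := dv_zero hΦ (hΦ r) (by omega)
      rw [e2, map_zero]
      ring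
    · subst hr
      have e2 : lieN (fr Φ r) (Φ r) = 0 := dv_zero hΦ (hΦ r) le_rfl
      rw [if_pos rfl, fr_self hΦ, e2, map_zero, map_one]
      ring
    · rw [if_neg (by omega), fr_gt hΦ hr]
      unfold dv
      ring

/-- **The derivative in the direction `l` of the natural coordinates.** -/
theorem hd_eval {Φ : ℕ → PN} (hΦ : TriN Φ) (g : ℕ → ℕ) (u : ℕ → ℝ) (l : ℕ) (s₀ : ℝ) (F : PN) :
    HasDerivAt (fun s => eval (pt g Φ (mv u l s)) F)
      (1 / 2 ^ g l * eval (pt g Φ (mv u l s₀)) (dv Φ l F)) s₀ :=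
  hda0 _ _ _ _ (hd_pt hΦ g u l s₀) F

theorem hd_fin {σ : Type*} [Fintype σ] (c : ℝ → σ → ℝ) (c' : σ → ℝ) (t₀ : ℝ)
    (hc : ∀ s, HasDerivAt (fun t => c t s) (c' s) t₀) (f : MvPolynomial σ ℝ) :
    HasDerivAt (fun t => eval (c t) f) (∑ s, c' s * eval (c t₀) (pderiv s f)) t₀ := by
  classical
  induction f using MvPolynomial.induction_on with
  | C a => simpa using hasDerivAt_const t₀ a
  | add p q hp hq =>
    have := hp.fun_add hq
    simp only [map_add]
    refine this.congr_deriv ?_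
    rw [← Finset.sum_add_distrib]
    exact Finset.sum_congr rfl fun s _ => by ring
  | mul_X p i hp =>
    have := hp.fun_mul (hc i)
    simp only [map_mul, eval_X]
    refine this.congr_deriv ?_
    simp only [pderiv_mul, map_add, map_mul, eval_X, pderiv_X, Finset.sum_mul]
    have h2 : eval (c t₀) p * c' i =
        ∑ s, c' s * (eval (c t₀) p * eval (c t₀) ((Pi.single s 1 : σ → MvPolynomial σ ℝ) i)) := by
      rw [Finset.sum_eq_single i]
      · simp; ring
      · intro b _ hb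
        simp [Pi.single_apply, hb.symm]
      · simp
    rw [h2, ← Finset.sum_add_distrib]
    exact Finset.sum_congr rfl fun s _ => by ring

/-- The curve in one coordinate as a polynomial. -/
noncomputable def cv (u : ℕ → ℝ) (l : ℕ) : PN →ₐ[ℝ] MvPolynomial (Fin 1) ℝ :=
  aeval fun i => C (u i) + if i = l then X 0 else 0

theorem eval_cv (u : ℕ → ℝ) (l : ℕ) (y : Fin 1 → ℝ) (F : PN) :
    eval y (cv u l F) = eval (mv u l (y 0)) F := by
  unfold cv
  rw [aeval_def, eval₂_eq, map_sum, eval_eq]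
  refine Finset.sum_congr rfl fun d _ => ?_
  rw [map_mul, map_prod, algebraMap_eq, eval_C]
  congr 1
  refine Finset.prod_congr rfl fun j _ => ?_
  rw [map_pow]
  congr 1
  unfold mv
  rw [map_add, eval_C]
  split_ifs with h
  · rw [eval_X]
  · rw [map_zero, add_zero]

theorem deg_cv (u : ℕ → ℝ) (l : ℕ) (F : PN) : (cv u l F).totalDegree ≤ F.totalDegree := by
  unfold cv
  rw [aeval_def, eval₂_eq]
  refine totalDegree_finsetSum_le fun d hd => ?_
  refine (totalDegree_mul _ _).trans ?_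
  have h0 : (algebraMap ℝ (MvPolynomial (Fin 1) ℝ) (coeff d F)).totalDegree = 0 := by
    rw [algebraMap_eq, totalDegree_C]
  rw [h0, zero_add]
  refine (totalDegree_finsetProd _ _).trans ?_
  refine (Finset.sum_le_sum (g := fun j => d j) fun j _ => ?_).trans (le_totalDegree hd)
  refine (totalDegree_pow _ _).trans ?_
  calc d j * _ ≤ d j * 1 := by
        refine Nat.mul_le_mul_left _ ((totalDegree_add _ _).trans (max_le ?_ ?_))
        · rw [totalDegree_C]
          exact Nat.zero_le _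
        · split_ifs
          · exact (totalDegree_X _).le
          · rw [totalDegree_zero]
            exact Nat.zero_le _
    _ = d j := Nat.mul_one _

/-- **The derivative of a polynomial which is small on the box.** -/
theorem dv_le (m K : ℕ) : ∃ C : ℝ, 1 ≤ C ∧ ∀ (g : ℕ → ℕ) (Φ : ℕ → PN) (F : PN) (τ : ℝ)
    (x : ℕ → ℝ) (l : ℕ), TriN Φ → (∀ i < m, (Φ i).totalDegree ≤ K) → F.vars ⊆ range m →
    F.totalDegree ≤ K → 1 ≤ l → (∀ r, 1 ≤ r → r < m → |nat g Φ x r| ≤ 1) →
    (∀ b : ℕ → ℝ, b 0 = x 0 → (∀ r, 1 ≤ r → r < m → |nat g Φ b r| ≤ 2) → |eval b F| ≤ τ) →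
    |eval x (dv Φ l F)| ≤ C * 2 ^ g l * τ := by
  obtain ⟨C, hC0, hC⟩ := Pool.Agent.H36.KBX.der_bound 1 (K * (K + 1) ^ m)
  refine ⟨C + 1, by linarith, fun g Φ F τ x l hΦ dΦ vF dF hl hx hb => ?_⟩
  have hτ : 0 ≤ τ := (abs_nonneg _).trans (hb x rfl fun r h1 h2 => (hx r h1 h2).trans one_le_two)
  set H : PN := bind₁ (nuc g Φ) F with hH
  set P := cv (nat g Φ x) l H with hP
  have e1 : ∀ y : Fin 1 → ℝ, eval y P = eval (pt g Φ (mv (nat g Φ x) l (y 0))) F := by
    intro y
    rw [hP, eval_cv, hH, eval_fr']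
  have h1 : ∀ y : Fin 1 → ℝ, (∀ i, |y i| ≤ 1) → |eval y P| ≤ τ := by
    intro y hy
    rw [e1]
    refine hb _ ?_ fun r hr hr' => ?_
    · have e2 : pt g Φ (nat g Φ x) 0 = x 0 := congrFun (pt_nat hΦ x) 0
      rw [← e2, pt_eq hΦ, pt_eq hΦ]
      have e3 : mv (nat g Φ x) l (y 0) 0 = nat g Φ x 0 := by
        unfold mv
        rw [if_neg (by omega)]
      rw [e3]
      congr 1
      exact evl_congr fun k hk => absurd (mem_range.1 (hΦ 0 hk)) (Nat.not_lt_zero _)
    · rw [nat_pt hΦ]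
      have e4 := hx r hr hr'
      have e5 := hy 0
      unfold mv
      split_ifs
      · refine (abs_add_le _ _).trans ?_
        linarith
      · linarith
  obtain ⟨-, h2, -⟩ := hC P τ ((deg_cv _ _ _).trans (deg_fr hΦ dΦ vF dF)) h1 (fun _ => 0)
    fun i => by norm_num
  have h3 := h2 0
  have d1 : HasDerivAt (fun s : ℝ => eval (fun _ : Fin 1 => s) P)
      (∑ i : Fin 1, 1 * eval (fun _ => (0 : ℝ)) (pderiv i P)) 0 :=
    hd_fin (fun s _ => s) (fun _ => 1) 0 (fun _ => hasDerivAt_id 0) P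
  have d2 : HasDerivAt (fun s : ℝ => eval (fun _ : Fin 1 => s) P)
      (1 / 2 ^ g l * eval (pt g Φ (mv (nat g Φ x) l 0)) (dv Φ l F)) 0 := by
    have e6 : (fun s : ℝ => eval (fun _ : Fin 1 => s) P) =
        fun s => eval (pt g Φ (mv (nat g Φ x) l s)) F := by
      funext s
      exact e1 _
    rw [e6]
    exact hd_eval hΦ g _ l 0 F
  have h4 := d2.unique d1
  rw [mv_zero, pt_nat hΦ, Fin.sum_univ_one, one_mul] at h4
  have h5 : eval x (dv Φ l F) = 2 ^ g l * eval (fun _ => (0 : ℝ)) (pderiv 0 P) := by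
    rw [← h4]
    field_simp
  rw [h5, abs_mul, abs_of_pos (by positivity)]
  have h6 : (2 : ℝ) ^ g l * |eval (fun _ => (0 : ℝ)) (pderiv 0 P)| ≤ 2 ^ g l * (C * τ) :=
    mul_le_mul_of_nonneg_left h3 (by positivity)
  refine h6.trans ?_
  have h7 : (0 : ℝ) ≤ 2 ^ g l * τ := by positivity
  nlinarith

/-! ### The change of the frame -/

/-- The coefficients of a change of the frame. -/
noncomputable def gg (Ψ Φ : ℕ → PN) (l m : ℕ) : PN := dv Ψ l (X m - Φ m)

theorem gg_eq {Ψ Φ : ℕ → PN} (hΨ : TriN Ψ) {l m : ℕ} (h : l < m) :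
    gg Ψ Φ l m = dv Ψ l (Ψ m - Φ m) := by
  unfold gg
  rw [map_sub, map_sub, dv_X, fr_gt hΨ h]

/-- **The change of the frame.** -/
theorem dv_chg {Ψ Φ : ℕ → PN} (hΨ : TriN Ψ) (hΦ : TriN Φ) {l n : ℕ} {F : PN}
    (hF : F.vars ⊆ range n) :
    dv Ψ l F = dv Φ l F + ∑ m ∈ Ioo l n, gg Ψ Φ l m * dv Φ m F := by
  set D2 : Derivation ℝ PN PN := dv Φ l + ∑ m ∈ Ioo l n, gg Ψ Φ l m • dv Φ m with hD2
  have e2 : ∀ G : PN, D2 G = dv Φ l G + ∑ m ∈ Ioo l n, gg Ψ Φ l m * dv Φ m G := by
    intro G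
    rw [hD2, Derivation.add_apply]
    congr 1
    have e : ∀ s : Finset ℕ, (∑ m ∈ s, gg Ψ Φ l m • dv Φ m) G =
        ∑ m ∈ s, gg Ψ Φ l m * dv Φ m G := by
      intro s
      induction s using Finset.induction_on with
      | empty =>
        rw [Finset.sum_empty, Finset.sum_empty]
        rfl
      | insert a s ha ih =>
        rw [Finset.sum_insert ha, Finset.sum_insert ha, Derivation.add_apply, ih,
          Derivation.smul_apply, smul_eq_mul]
    exact e _
  rw [← e2]
  have key : ∀ r < n, dv Ψ l (X r) = D2 (X r) := by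
    intro r
    induction r using Nat.strong_induction_on with
    | _ r ih =>
      intro hr
      rw [e2, dv_X, dv_X]
      rcases lt_trichotomy r l with h | h | h
      · rw [fr_lt hΨ h, fr_lt hΦ h, zero_add, Finset.sum_eq_zero]
        intro m hm
        rw [dv_X, fr_lt hΦ (by have := Finset.mem_Ioo.1 hm; omega), mul_zero]
      · subst h
        rw [fr_self hΨ, fr_self hΦ, Finset.sum_eq_zero, add_zero]
        intro m hm
        rw [dv_X, fr_lt hΦ (by have := Finset.mem_Ioo.1 hm; omega), mul_zero]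
      · have h1 : dv Ψ l (Φ r) = D2 (Φ r) :=
          derivation_eq_of_forall_mem_vars fun i hi =>
            ih i (mem_range.1 (hΦ r hi)) (by have := mem_range.1 (hΦ r hi); omega)
        have h2 : fr Ψ l r = gg Ψ Φ l r + dv Ψ l (Φ r) := by
          unfold gg
          rw [map_sub, dv_X]
          ring
        rw [h2, h1, e2, fr_gt hΦ h]
        have hmem : r ∈ Ioo l n := Finset.mem_Ioo.2 ⟨h, hr⟩
        rw [← Finset.add_sum_erase _ _ hmem, ← Finset.add_sum_erase _ (fun m =>
          gg Ψ Φ l m * dv Φ m (X r)) hmem]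
        rw [dv_zero hΦ (hΦ r) le_rfl, mul_zero, zero_add, dv_X, fr_self hΦ, mul_one]
        have h3 : ∑ m ∈ (Ioo l n).erase r, gg Ψ Φ l m * dv Φ m (Φ r) =
            ∑ m ∈ (Ioo l n).erase r, gg Ψ Φ l m * dv Φ m (X r) := by
          refine Finset.sum_congr rfl fun m hm => ?_
          rw [dv_X]
          rcases lt_or_gt_of_ne (Finset.ne_of_mem_erase hm) with h4 | h4
          · rw [fr_gt hΦ h4]
          · rw [fr_lt hΦ h4, dv_zero hΦ (hΦ r) h4.le]
        rw [h3]
        ring
  exact derivation_eq_of_forall_mem_vars fun i hi => key i (mem_range.1 (hF hi))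

end Pool.MicA
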