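import Pool.Agent.H46.MicA.OutA

/-!
# The local theorem, no base coordinate of the weight of the target

From the axioms of a cell, the nonfull rows and the uniform time alone.
-/

set_option autoImplicit false

namespace Pool.MicA

open Pool.STAT

/-- **The local theorem** for slopes with `CondA` and no base coordinate of the weight of the
target. -/
theorem micOf_condN : MicOf CondN :=
  micOf_of_loc subLla (mic_of_outA (fun _ _ _ h => h.1) locA)

/-- With own leaves. -/
theorem micW_condN : MicWOf CondN := by
  intro n K A B R lam gam C₁ h a1 a2 a3 a4 a5 a6 a7 a8 a9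
  obtain ⟨M, K', η', κ, ϖ, z₀, b1, b2, b3, H⟩ :=
    micOf_condN n K A B lam gam C₁ h a1 a2 a3 a4 a5 a6 a7 a8 a9
  exact ⟨M, K', η', κ, ϖ, z₀, b1, b2, b3, fun J a₀ w₀ z D q hz hO _ _ hN hT =>
    H J a₀ w₀ z D q hz hO hN hT⟩

end Pool.MicA
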