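import Pool.Agent.H46.MicA.Stm
import Pool.Agent.H55.GEN.GluF

/-!
# The local theorem at a pair: interface

`MicOut Q`: the local theorem at the pairs `(i, j)`, `(i', j')` of the grid, for all slopes with `Q`:
the gradient of the own shape is closed on shorter windows. With the gluing (`glu_thm`) it gives
`MicWOf Q`.
-/

set_option autoImplicit false

namespace Pool.MicA

open Finset MvPolynomial
open Pool.Agent.H49.Ent Pool.Agent.H32.Dense Pool.STK Pool.STAT Pool.MIC Pool.MIC.Frm Pool.LBL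
open Pool.BFL (Pl Pb)
open Pool.STAT.Glu (EvK)

/-- **The own shape is not truncated.** -/
def GdkStmt : Prop :=
  ∀ (n K K₀ : ℕ) (lam gam : ℕ → ℝ) (C₁ : ℝ), 1 ≤ n → 1 ≤ C₁ → K * (K + 1) ^ n ≤ K₀ →
    ∃ Cb : ℕ, ∀ e : ℝ, 0 < e → ∃ (κ : ℝ) (z₀ : ℕ), 0 < κ ∧
    ∀ (J a₀ w₀ z M i j i' j' X bb : ℕ) (D : NDat2) (q : D.Ω → ℝ), z₀ ≤ z → i < M → j ≤ M →
      i' ≤ M → j' ≤ M → Fat D n i j i' j' → D.g i j n + X ≤ D.g i' j' n → z ≤ X →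
      Cb * z ≤ bb → D.Ok2 n K J a₀ w₀ z M lam gam κ C₁ q → D.LLV n z M κ q →
      Pb q (fun ω => ¬ Gdk D n K₀ z i j i' j' X bb ω) ≤ e

/-- The geometry of the pairs: `(i, j)` the base, `(i', j')` the own leaf. -/
structure Geo (D : NDat2) (n z M B R U d i j i' j' : ℕ) (gam : ℕ → ℝ) : Prop where
  inn : NDat2.Inn M (R * U) i j
  inn' : NDat2.Inn M (R * U) i' j'
  si : i' + R * U ≤ i
  sj : j + R * U ≤ j'
  B_le : i + B * U ≤ M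
  nf : (U : ℝ) ≤ gam n * (M - j)
  d_le : d ≤ i
  d_lt : i + d < M
  fat : Fat D n (i - d) j i' j'
  own : D.g (i + d) j n + U * z ≤ D.g i' j' n

/-- **The local theorem at a pair.** `A₂ m z` digits of the time are paid, `a m z` digits of the
height are won. -/
def MicOut (Q : Cond2) : Prop :=
  ∀ (n K B R V : ℕ) (lam gam : ℕ → ℝ) (C₁ h : ℝ), 1 ≤ n → 1 ≤ B → 1 ≤ R → (∀ l, 1 ≤ lam l) →
    (∀ l, 0 ≤ gam l) → 0 < gam n → 1 ≤ C₁ → 0 < h → h ≤ 1 → Q n lam gam →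
    ∃ (A₂ a K₂ : ℕ) (c₁ : ℝ), V * A₂ < a ∧ 0 < c₁ ∧ ∀ m₀ : ℕ,
    ∃ (m U bb d : ℕ), m₀ ≤ m ∧ a * m ≤ U ∧ ∀ M : ℕ,
    ∃ (κ ϖ : ℝ) (z₀ : ℕ), 0 < κ ∧ 0 < ϖ ∧
    ∀ (J a₀ w₀ z i j i' j' : ℕ) (D : NDat2) (q : D.Ω → ℝ), z₀ ≤ z →
      Geo D n z M B R U d i j i' j' gam →
      D.Ok2 n K J a₀ w₀ z M lam gam κ C₁ q → D.LLV n z M κ q → D.LLN n z M R κ q →
      D.NF n z M B gam h C₁ ϖ q → D.TmU J w₀ z κ q →
      ∃ H : D.Λ × ℕ → ℤ → Pl (n - 1 + 1), (∀ x v, (H x v).totalDegree ≤ K₂) ∧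
        c₁ ≤ Pb q (EvK D n (K * (K + 1) ^ n) J w₀ z i j i' j' (U * z) (bb * z)
          ((A₂ * m) * z) ((a * m) * z) H)

/-- From the local theorem at a pair to `MicWOf`. -/
def MicOfOutStmt : Prop :=
  ∀ Q : Cond2, (∀ n lam gam, Q n lam gam → CondA n lam gam) → MicOut Q → MicWOf Q

/-- No base coordinate has the weight of the target. -/
def CondN : Cond2 := fun n lam gam => CondA n lam gam ∧ ∀ l, 1 ≤ l → l < n → lam l ≠ lam n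

end Pool.MicA
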