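import Pool.Agent.H35.MICA.Pth

/-!
# The path, the degree before the error

The proof is helper35's proof of `PathStmt`.
-/

set_option autoImplicit false

namespace Pool.MicA

open Finset MvPolynomial
open Pool.Agent.H49.Ent Pool.Agent.H32.Dense Pool.STK Pool.STAT Pool.MIC Pool.MIC.Frm Pool.LBL
open Pool.BFL (Pl Pb)
open Pool.MicA
open scoped Polynomial
open Pool.PTH

/-- **The path**, the degree before the error. -/
def Path2Stmt : Prop :=
  ∀ (n K : ℕ) (lam gam : ℕ → ℝ) (C₁ : ℝ), 1 ≤ n → 1 ≤ C₁ → ∃ E : ℕ, ∀ e : ℝ, 0 < e →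
    ∃ (κ : ℝ) (z₀ : ℕ), 0 < κ ∧
    ∀ (J a₀ w₀ z M i j : ℕ) (D : NDat2) (q : D.Ω → ℝ), z₀ ≤ z → i ≤ M → j ≤ M →
      D.Ok2 n K J a₀ w₀ z M lam gam κ C₁ q → D.TmU J w₀ z κ q →
      ∃ β : D.Λ × ℕ → Fin (n - 1) → Fin (E + 1) → ℝ,
        (∀ ω, 0 < q ω → ∀ l, pos (β (D.wn J (w₀ + j * z) ω))
          ((thr D J (w₀ + j * z) ω : ℝ) / 2 ^ (J - (w₀ + j * z))) l =
            up z (zt D i j ω (l + 1))) ∧
        Pb q (fun ω => ¬ ∀ l e, |β (D.wn J (w₀ + j * z) ω) l e| ≤ 1) ≤ e

/-- **The path.** -/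
theorem path2_thm : Path2Stmt := by
  classical
  intro n K lam gam C₁ hn hC₁
  refine ⟨K * (K + 1), fun e he => ?_⟩
  obtain ⟨N, hN⟩ : ∃ N, N = K * (K + 1) + 1 := ⟨_, rfl⟩
  have hN1 : 1 ≤ N := by omega
  have hN0 : (0 : ℝ) < N := by exact_mod_cast hN1
  refine ⟨e / (8 * N), 20 * N ^ 2 + 5 * N, by positivity, ?_⟩
  intro J a₀ w₀ z M i j D q hz hi hj hO hU
  obtain ⟨w, hw⟩ : ∃ w, w = w₀ + j * z := ⟨_, rfl⟩
  rw [← hw]
  obtain ⟨y, hy⟩ : ∃ y, y = z / (2 * N) := ⟨_, rfl⟩
  have hz4 : 4 * N ≤ z := by nlinarith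
  have hyz : y ≤ z := by
    rw [hy]
    exact Nat.div_le_self _ _
  have hwJ : w + y ≤ J ∧ w ≤ J := by
    have h1 := hO.top
    have h2 := hO.thin
    have h3 : j * z ≤ M * z := Nat.mul_le_mul_right z hj
    have h4 : (M + 1) * z = M * z + z := by ring
    rw [hw]
    omega
  have hq := hO.isLaw
  -- the times in the classes
  have hlow := Pool.TMU.CH_low hq D.T D.ln (w := w) (by rw [hw]; exact Nat.le_add_right _ _)
    hwJ.2 hO.ln_w hU
  have hlow' : ((J - w : ℕ) : ℝ) * Real.log 2 - e / (8 * N) * z ≤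
      CH q (thr D J w) (D.wn J w) := by
    refine hlow.trans ?_
    refine CH_mono_left hq.nonneg ?_
    intro ω ω' _ _ e'
    have e1 : thr D J w ω = thr D J w ω' := (Prod.ext_iff.1 e').1
    have e2 : D.T ω / 2 ^ (J - w) = D.T ω' / 2 ^ (J - w) :=
      (Prod.ext_iff.1 (Prod.ext_iff.1 e').2).2
    unfold thr at e1
    rw [← Nat.div_add_mod (D.T ω) (2 ^ (J - w)), ← Nat.div_add_mod (D.T ω') (2 ^ (J - w)),
      e1, e2]
  have hbig := big_class hq (D.wn J w) (thr D J w) (m := J - w) (y := y)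
    (fun ω => Nat.mod_lt _ (by positivity)) (by omega) hN1 hlow'
  -- the path
  have hpath : ∀ ω ω', 0 < q ω → 0 < q ω' → D.wn J w ω = D.wn J w ω' → ∀ l,
      UU D J w z i j ω l = UU D J w z i j ω' l := by
    intro ω ω' h h' e' l
    unfold UU
    rw [Qp_congr (hw ▸ hO.c_wn i hi j hj) h h' e' l]
  obtain ⟨U, hUU⟩ : ∃ U : D.Λ × ℕ → ℕ → ℝ[X], ∀ ω, 0 < q ω →
      U (D.wn J w ω) = UU D J w z i j ω := by
    refine ⟨fun x => if h : ∃ ω, 0 < q ω ∧ D.wn J w ω = x then UU D J w z i j h.choose else 0,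
      fun ω hω => ?_⟩
    have hx : ∃ ω', 0 < q ω' ∧ D.wn J w ω' = D.wn J w ω := ⟨ω, hω, rfl⟩
    dsimp only
    rw [dif_pos hx]
    funext l
    exact hpath _ _ hx.choose_spec.1 hω hx.choose_spec.2 l
  refine ⟨fun x l a => (U x (l + 1)).coeff a, ?_, ?_⟩
  · intro ω hω l
    have hl : (l : ℕ) + 1 ≤ n := by
      have := l.2
      omega
    have h1 := UU_eval (z := z) hO.X_zero hwJ.2 (hO.str ω hω) (hO.P_tri i j (D.c i j ω))
      (i := i) (j := j) hl
    rw [← h1, ← hUU ω hω]
    have h2 : (U (D.wn J w ω) (l + 1)).natDegree < K * (K + 1) + 1 := by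
      rw [hUU ω hω]
      exact Nat.lt_succ_of_le (UU_deg hO.pa_deg hO.P_deg ω _)
    rw [Polynomial.eval_eq_sum_range' h2, Finset.sum_range]
    rfl
  · -- the bad classes
    have hsub : Pb q (fun ω => ¬ ∀ (l : Fin (n - 1)) (a : Fin (K * (K + 1) + 1)),
        |(U (D.wn J w ω) (l + 1)).coeff a| ≤ 1) ≤
        Pb q (fun ω => (st q (D.wn J w) (thr D J w) (D.wn J w ω)).card ≤
          N * (2 * 2 ^ (J - w - y) + 1)) := by
      refine Pool.MIC.Pb_mono_ae hq.nonneg fun ω hω hbad => ?_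
      by_contra hcard
      refine hbad fun l a => ?_
      have hl : (l : ℕ) + 1 ≤ n := by
        have := l.2
        omega
      obtain ⟨t, ht1, ht2⟩ := (sep_or (st q (D.wn J w) (thr D J w) (D.wn J w ω))
        (2 ^ (J - w - y)) N).resolve_right hcard
      -- the nodes
      have hnode : ∀ p, ∃ ω', 0 < q ω' ∧ D.wn J w ω' = D.wn J w ω ∧ thr D J w ω' = t p := by
        exact fun p => mem_st.1 (ht1 p)
      have hpw : (0 : ℝ) < 2 ^ (J - w) := by positivity
      have h1 := coeff_nodes (N := N) (y := y) (fun p => (t p : ℝ) / 2 ^ (J - w)) (fun p => ?_)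
        (fun p p' hp => ?_) (Qp D J w i j ω (l + 1)) (by
          rw [hN]
          exact Nat.lt_succ_of_le (Qp_deg hO.pa_deg hO.P_deg ω _)) (fun p => ?_)
        ⟨a, by rw [hN]; exact a.2⟩
      · -- the coefficient
        rw [hUU ω hω]
        unfold UU
        rw [Polynomial.coeff_C_mul, Polynomial.coeff_add, Polynomial.coeff_C]
        have h2 : (N : ℝ) * (2 * 2 ^ y) ^ N ≤ 2 ^ z := by
          have h3 : (2 * 2 ^ y : ℝ) ^ N = 2 ^ ((y + 1) * N) := by
            rw [← pow_succ', ← pow_mul]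
          have h4 : (N : ℝ) ≤ 2 ^ N := by
            have := Nat.lt_two_pow_self (n := N)
            exact_mod_cast this.le
          rw [h3]
          calc (N : ℝ) * 2 ^ ((y + 1) * N) ≤ 2 ^ N * 2 ^ ((y + 1) * N) :=
                mul_le_mul_of_nonneg_right h4 (by positivity)
            _ = 2 ^ (N + (y + 1) * N) := by rw [pow_add]
            _ ≤ 2 ^ z := by
                refine pow_le_pow_right₀ (by norm_num) ?_
                have h5 : y * (2 * N) ≤ z := by
                  rw [hy]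
                  exact Nat.div_mul_le_self _ _
                nlinarith
        have h3 : (0 : ℝ) < 2 ^ z := by positivity
        have h4 : |(Qp D J w i j ω (l + 1)).coeff a| ≤ 2 ^ z := h1.trans h2
        rw [abs_mul, abs_of_pos (show (0 : ℝ) < 1 / (4 * 2 ^ z) by positivity), one_div,
          inv_mul_le_iff₀ (by positivity)]
        refine (abs_add_le _ _).trans ?_
        have h5 : |(if (a : ℕ) = 0 then (2 : ℝ) * 2 ^ z else 0)| ≤ 2 * 2 ^ z := by
          split_ifs
          · rw [abs_of_pos (by positivity)]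
          · rw [abs_zero]
            positivity
        linarith
      · -- nodes are in the interval
        rw [abs_of_nonneg (by positivity), div_le_one hpw]
        obtain ⟨ω', -, -, h3⟩ := hnode p
        have h4 : t p < 2 ^ (J - w) := by
          rw [← h3]
          exact Nat.mod_lt _ (by positivity)
        exact_mod_cast h4.le
      · -- separation
        have h3 := ht2 p p' hp
        rw [← sub_div, abs_div, abs_of_pos hpw, div_le_div_iff₀ (by positivity) hpw, one_mul]
        have h4 : (2 : ℝ) ^ (J - w) = ((2 ^ (J - w - y) : ℕ) : ℝ) * 2 ^ y := by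
          push_cast
          rw [← pow_add]
          congr 1
          omega
        rw [h4]
        exact mul_le_mul_of_nonneg_right h3 (by positivity)
      · -- values at the nodes
        obtain ⟨ω', h2, h3, h4⟩ := hnode p
        rw [← Qp_congr (hw ▸ hO.c_wn i hi j hj) h2 hω h3, ← h4,
          Qp_eval hO.X_zero hwJ.2 (hO.str ω' h2) (hO.P_tri i j (D.c i j ω')) hl]
        unfold zt nat
        rw [abs_mul, abs_of_pos (show (0 : ℝ) < 2 ^ D.g i j (l + 1) by positivity)]
        have h5 := hO.hgt i hi j hj ω' h2 (l + 1) hl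
        rw [le_div_iff₀ (by positivity)] at h5
        unfold NDat2.rh at h5
        linarith
    refine hsub.trans ?_
    -- numbers
    obtain ⟨P, hP⟩ : ∃ P, P = Pb q (fun ω => (st q (D.wn J w) (thr D J w) (D.wn J w ω)).card ≤
          N * (2 * 2 ^ (J - w - y) + 1)) := ⟨_, rfl⟩
    rw [← hP] at hbig ⊢
    have hP0 : 0 ≤ P := by
      rw [hP]
      unfold Pb
      exact Finset.sum_nonneg fun ω _ => by
        split_ifs
        · exact hq.nonneg ω
        · exact le_rfl
    have hzN : (20 * (N : ℝ) ^ 2 + 5 * N) ≤ z := by exact_mod_cast hz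
    have hlogN : Real.log (4 * N) ≤ 4 * N := by
      have := Real.log_le_sub_one_of_pos (show (0 : ℝ) < 4 * N by positivity)
      linarith
    have hyr : (z : ℝ) / (2 * N) - 1 ≤ y := by
      have h1 : z < 2 * N * (y + 1) := by
        rw [hy]
        exact Nat.lt_mul_div_succ z (by omega)
      have h2 : (z : ℝ) < 2 * N * (y + 1) := by exact_mod_cast h1
      rw [sub_le_iff_le_add, div_le_iff₀ (by positivity)]
      linarith
    have hl2 : 0.69 ≤ Real.log 2 := by linarith [Real.log_two_gt_d9]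
    have hl2' : Real.log 2 ≤ 0.7 := by linarith [Real.log_two_lt_d9]
    have hz0 : (0 : ℝ) < z := by nlinarith
    have h1 : (z : ℝ) / (8 * N) ≤ y * Real.log 2 - Real.log (4 * N) := by
      obtain ⟨u, hu⟩ : ∃ u : ℝ, u = z / N := ⟨_, rfl⟩
      have hu1 : 20 * (N : ℝ) + 5 ≤ u := by
        rw [hu, le_div_iff₀ hN0]
        nlinarith
      have hu2 : (z : ℝ) / (2 * N) = u / 2 := by
        rw [hu]
        field_simp
      have hu3 : (z : ℝ) / (8 * N) = u / 8 := by
        rw [hu]
        field_simp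
      rw [hu2] at hyr
      rw [hu3]
      have hy0 : 0 ≤ u / 2 - 1 := by linarith
      have h2 : (u / 2 - 1) * 0.69 ≤ y * Real.log 2 :=
        mul_le_mul hyr hl2 (by norm_num) (by linarith)
      nlinarith
    have h2 : P * ((z : ℝ) / (8 * N)) ≤ e / (8 * N) * z :=
      (mul_le_mul_of_nonneg_left h1 hP0).trans hbig
    have h3 : P * ((z : ℝ) / (8 * N)) = P * z / (8 * N) := by ring
    have h4 : e / (8 * N) * z = e * z / (8 * N) := by ring
    rw [h3, h4, div_le_div_iff_of_pos_right (by positivity)] at h2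
    exact le_of_mul_le_mul_right h2 hz0


end Pool.MicA
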