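import Pool.Agent.H46.MicA.Grad
import Pool.Agent.H20.MICA.Uni
import Pool.Agent.H35.MICA.Pth

/-!
# The path and the gradient
-/

set_option autoImplicit false

namespace Pool.MicA

open Pool.Agent.H49.Ent Pool.Agent.H32.Dense Pool.STK Pool.STAT Pool.MIC Pool.MIC.Frm Pool.LBL

/-- **The gradient of the own shape along the path is closed.** -/
theorem gradA_thm : GradAStmt := gradA_of UniP.uniRad_thm

/-- The same from `LLV`. -/
theorem grad_thm : GradStmt := by
  intro n K lam gam C₁ hn hC₁ hlam hgam hne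
  obtain ⟨nn, H⟩ := gradA_thm n K lam gam C₁ hn hC₁ hlam hgam hne
  refine ⟨nn, fun S e he => ?_⟩
  obtain ⟨d, κ, z₀, hκ, H1⟩ := H S e he
  obtain ⟨N₁, hN₁⟩ := exists_nat_ge C₁
  refine ⟨d + 2 * N₁ + 1, κ, z₀, hκ, ?_⟩
  intro J a₀ w₀ z M i j i' j' D q hz hdi hiM hj hi' hj' hF hgn hO hV
  refine H1 J a₀ w₀ z M i j i' j' D q hz (by omega) (by omega) hj hi' hj' ?_ hO ?_
  · exact (g_mono hO hN₁ (i₁ := i + d) (by omega) hiM.le hj hn le_rfl).trans hgn
  · intro i₁ h1 h2
    have h3 := UniD.ful_of_llv (κ₀ := κ) hV hO.isLaw.nonneg le_rfl (U := 1) (i := i₁) (j := j)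
      (by omega) hj hi' hj' fun l l1 l2 =>
        (hF l l1 l2).trans (g_mono hO hN₁ (by omega) (by omega) hj l1 l2.le)
    rwa [Nat.one_mul] at h3

theorem path_thm : PathStmt := Pool.PTH.path_thm

end Pool.MicA
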