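import Pool.Agent.H46.MicA.Thms
import Pool.Agent.H46.MicA.Path2
import Pool.Agent.H46.MicA.Out
import Pool.Agent.H12.MICA.Leaf

/-!
# Typical samples

The path and the gradient of the truncated own shape along the path.
-/

set_option autoImplicit false

namespace Pool.MicA

open Finset MvPolynomial
open Pool.Agent.H49.Ent Pool.Agent.H32.Dense Pool.STK Pool.STAT Pool.MIC Pool.MIC.Frm Pool.LBL
open Pool.BFL (Pl Pb)
open scoped Polynomial

/-- The position in the base, bounded everywhere. -/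
noncomputable def Y1 (D : NDat2) (n z i j X : ℕ) (ω : D.Ω) (l : Fin (n - 1)) : ℕ :=
  min (Yp D n z i j X ω l) (2 ^ X - 1)

theorem Y1_lt (D : NDat2) (n z i j X : ℕ) (ω : D.Ω) (l : Fin (n - 1)) :
    Y1 D n z i j X ω l < 2 ^ X := by
  have h : 0 < 2 ^ X := by positivity
  unfold Y1
  have := min_le_right (Yp D n z i j X ω l) (2 ^ X - 1)
  omega

theorem up_lt {z : ℕ} {x : ℝ} (hx : |x| ≤ 1) : 0 ≤ up z x ∧ up z x < 1 := by
  have h1 := abs_le.1 hx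
  have h2 : (1 : ℝ) ≤ 2 ^ z := one_le_pow₀ one_le_two
  unfold up
  constructor
  · refine div_nonneg ?_ (by positivity)
    linarith
  · rw [div_lt_one (by positivity)]
    linarith

section

variable {D : NDat2} {n K J a₀ w₀ z M : ℕ} {lam gam : ℕ → ℝ} {κ C₁ : ℝ} {q : D.Ω → ℝ}

theorem Y1_eq (hO : D.Ok2 n K J a₀ w₀ z M lam gam κ C₁ q) {i j : ℕ} (hi : i ≤ M)
    (hj : j ≤ M) {ω : D.Ω} (hω : 0 < q ω) (X : ℕ) : Y1 D n z i j X ω = Yp D n z i j X ω := by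
  funext l
  have h1 := up_lt (z := z) (zt_le hO hi hj hω (l := (l : ℕ) + 1) (by have := l.2; omega))
  have h2 : (0 : ℝ) < 2 ^ X := by positivity
  have h3 : Yp D n z i j X ω l < 2 ^ X := by
    unfold Yp
    rw [Nat.floor_lt (mul_nonneg h2.le h1.1)]
    push_cast
    nlinarith [h1.2]
  unfold Y1
  omega

end

theorem typ_thm (n K : ℕ) (lam gam : ℕ → ℝ) (C₁ : ℝ) (hn : 1 ≤ n) (hC₁ : 1 ≤ C₁)
    (hlam : ∀ l, 1 ≤ lam l) (hgam : ∀ l, 0 ≤ gam l)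
    (hne : ∀ l, 1 ≤ l → l < n → lam l ≠ lam n) :
    ∃ E nn : ℕ, ∀ (S : ℕ) (e : ℝ), 0 < e → ∃ (d c z₀ : ℕ) (κ : ℝ), 0 < κ ∧
    ∀ (J a₀ w₀ z M i j i' j' U bb : ℕ) (D : NDat2) (q : D.Ω → ℝ), z₀ ≤ z → d ≤ i →
      i + d < M → j ≤ M → i' ≤ M → j' ≤ M → Fat D n i j i' j' →
      D.g (i + d) j n ≤ D.g i' j' n → D.g i j n + U * z ≤ D.g i' j' n → S + c ≤ U →
      D.Ok2 n K J a₀ w₀ z M lam gam κ C₁ q →
      (∀ i₁, i ≤ i₁ + d → i₁ ≤ i + d → UniD.Ful D n i₁ j z (κ * z) q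
        (fun ω => (D.s i' j' ω, (D.c i₁ j ω, D.T ω)))) → D.TmU J w₀ z κ q →
      ∃ (β : D.Λ × ℕ → Fin (n - 1) → Fin (E + 1) → ℝ) (g : D.Λ × ℕ → Fin (n - 1) → ℝ[X]),
        Pb q (fun ω => ¬ Typ (D.wn J (w₀ + j * z)) (thr D J (w₀ + j * z))
          (Y1 D n z i j (U * z)) (kpA D n (K * (K + 1) ^ n) z i j i' j' (U * z) bb) β g nn
          (J - (w₀ + j * z)) (U * z) (S * z) 1 ω) ≤
        e + Pb q (fun ω => ¬ Gdk D n (K * (K + 1) ^ n) z i j i' j' (U * z) bb ω) := by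
  obtain ⟨E, hE⟩ := path2_thm n K lam gam C₁ hn hC₁
  obtain ⟨nn, hG⟩ := gradA_thm n K lam gam C₁ hn hC₁ hlam hgam hne
  refine ⟨E, nn, ?_⟩
  intro S e he
  obtain ⟨κ₁, z₁, hκ₁, hE1⟩ := hE (e / 2) (by positivity)
  obtain ⟨d, κ₂, z₂, hκ₂, hG1⟩ := hG (S + 1) (e / 2) (by positivity)
  obtain ⟨c, z₃, hK⟩ := Pool.STAT.GluK.grad_kpA n K (K * (K + 1) ^ n) 1 hn le_rfl le_rfl
  refine ⟨d, c + 1, max (max z₁ z₂) (max z₃ 1), min κ₁ κ₂, lt_min hκ₁ hκ₂, ?_⟩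
  intro J a₀ w₀ z M i j i' j' U bb D q hz hdi hdM hj hi' hj' hF hg1 hg hU hO hV hT
  have hz1 : z₁ ≤ z := ((le_max_left _ _).trans (le_max_left _ _)).trans hz
  have hz2 : z₂ ≤ z := ((le_max_right _ _).trans (le_max_left _ _)).trans hz
  have hz3 : z₃ ≤ z := ((le_max_left _ _).trans (le_max_right _ _)).trans hz
  have hz4 : 1 ≤ z := ((le_max_right _ _).trans (le_max_right _ _)).trans hz
  have hz0 : (0 : ℝ) ≤ z := Nat.cast_nonneg z
  have hT1 : D.TmU J w₀ z κ₁ q := by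
    unfold NDat2.TmU at hT ⊢
    have : min κ₁ κ₂ * (z : ℝ) ≤ κ₁ * z := mul_le_mul_of_nonneg_right (min_le_left _ _) hz0
    linarith
  obtain ⟨β, hβ1, hβ2⟩ := hE1 J a₀ w₀ z M i j D q hz1 (by omega) hj
    (hO.mono_κ (min_le_left _ _)) hT1
  obtain ⟨g, hg2, hg3⟩ := hG1 J a₀ w₀ z M i j i' j' D q hz2 hdi hdM hj hi' hj' hg1
    (hO.mono_κ (min_le_right _ _)) fun i₁ a b => Ful_mono (hV i₁ a b)
      (mul_le_mul_of_nonneg_right (min_le_right _ _) hz0)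
  refine ⟨β, g, ?_⟩
  set Eb : D.Ω → Prop := fun ω => ¬ ∀ l e, |β (D.wn J (w₀ + j * z) ω) l e| ≤ 1 with hEb
  set Eg : D.Ω → Prop := fun ω => ¬ ∀ l : Fin (n - 1),
    |eval (fun r : Fin (n - 1) => up z (zt D i j ω (r + 1)))
        (pderiv l (kp0 D n z i j i' j' ω)) -
      (g (D.wn J (w₀ + j * z) ω) l).eval
        ((thr D J (w₀ + j * z) ω : ℝ) / 2 ^ (J - (w₀ + j * z)))| ≤
      1 / 2 ^ ((S + 1) * z) with hEg
  set Ek : D.Ω → Prop := fun ω => ¬ Gdk D n (K * (K + 1) ^ n) z i j i' j' (U * z) bb ω with hEk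
  have hsum : Pb q (fun ω => (Eb ω ∨ Eg ω) ∨ Ek ω) ≤ e + Pb q Ek := by
    have h1 := Pb_or2 hO.isLaw.nonneg (fun ω => Eb ω ∨ Eg ω) Ek
    have h2 := Pb_or2 hO.isLaw.nonneg Eb Eg
    have h3 : Pb q Eb ≤ e / 2 := hβ2
    have h4 : Pb q Eg ≤ e / 2 := hg3
    linarith
  refine (Pb_mono_ae hO.isLaw.nonneg fun ω hω hb => ?_).trans hsum
  by_contra hcon
  have h1' : ∀ l e, |β (D.wn J (w₀ + j * z) ω) l e| ≤ 1 :=
    not_not.1 fun h => hcon (Or.inl (Or.inl h))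
  have h2' : ∀ l : Fin (n - 1),
      |eval (fun r : Fin (n - 1) => up z (zt D i j ω (r + 1)))
          (pderiv l (kp0 D n z i j i' j' ω)) -
        (g (D.wn J (w₀ + j * z) ω) l).eval
          ((thr D J (w₀ + j * z) ω : ℝ) / 2 ^ (J - (w₀ + j * z)))| ≤
        1 / 2 ^ ((S + 1) * z) := not_not.1 fun h => hcon (Or.inl (Or.inr h))
  have h3' : Gdk D n (K * (K + 1) ^ n) z i j i' j' (U * z) bb ω :=
    not_not.1 fun h => hcon (Or.inr h)
  refine hb ⟨h1', hg2 _, ?_, ?_⟩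
  · intro l
    rw [hβ1 ω hω l, Y1_eq hO (by omega) hj hω]
    have h4 := Yp_near hO (by omega : i ≤ M) hj hω (U * z) l
    rw [abs_of_nonneg h4.1]
    exact h4.2.1
  · intro l
    have hpos : pos (β (D.wn J (w₀ + j * z) ω))
        ((thr D J (w₀ + j * z) ω : ℝ) / 2 ^ (J - (w₀ + j * z))) =
          fun r : Fin (n - 1) => up z (zt D i j ω (r + 1)) := funext (hβ1 ω hω)
    rw [hpos]
    have hlt : D.g i j n < D.g i' j' n := by
      have : 1 ≤ U * z := Nat.mul_pos (by omega) hz4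
      omega
    have h5 := hK z (U * z) bb i j i' j' D hz3 hO.P_tri hO.G_tri hO.P_deg hO.G_deg hF hlt hg ω h3'
      (fun r : Fin (n - 1) => up z (zt D i j ω (r + 1))) (fun r => by
        have h6 := up_lt (z := z) (zt_le hO (by omega : i ≤ M) hj hω (l := (r : ℕ) + 1)
          (by have := r.2; omega))
        rw [abs_of_nonneg h6.1]
        exact h6.2.le) l
    have h7 := h2' l
    have h8 : (2 : ℝ) ^ (c * z) / 2 ^ (U * z) ≤ 1 / 2 ^ ((S + 1) * z) := by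
      rw [div_le_div_iff₀ (by positivity) (by positivity), one_mul, ← pow_add]
      refine pow_le_pow_right₀ (by norm_num) ?_
      have := Nat.mul_le_mul_right z hU
      nlinarith
    have h9 : (1 : ℝ) / 2 ^ ((S + 1) * z) + 1 / 2 ^ ((S + 1) * z) ≤ 1 / 2 ^ (S * z) := by
      have e1 : (2 : ℝ) ≤ 2 ^ z := by
        calc (2 : ℝ) = 2 ^ 1 := (pow_one 2).symm
          _ ≤ 2 ^ z := pow_le_pow_right₀ (by norm_num) hz4
      have e2 : (S + 1) * z = S * z + z := by ring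
      rw [e2, pow_add, ← add_div, div_le_div_iff₀ (by positivity) (by positivity)]
      have : (0 : ℝ) < 2 ^ (S * z) := by positivity
      nlinarith
    refine (abs_sub_le _ _ _).trans ((add_le_add h5 h7).trans ?_)
    linarith

end Pool.MicA
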